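import Pool.Agent.Q224.ED.Flow2
import Pool.Agent.Q224.RD.Time
import Pool.Agent.Q224.RD.Mtx

/-!
# The reduction from the clique problem
-/

set_option autoImplicit false

namespace Q224.ED

open Finset Pool.Agent.H633R2 Q224.RD

/-- The codes of the vertices. -/
abbrev Cc := (Option (ℕ × ℕ) × ℕ) ⊕ ((ℕ × ℕ × ℕ) × ℕ)

/-- The list of vertices. -/
def vl (n k : ℕ) : List Cc :=
  ((Rl k).flatMap fun x => (List.range (HH n k - beta n k x)).map fun i => Sum.inl (x, i)) ++
    (Jl k).flatMap fun p => (List.range (WW n k)).map fun t => Sum.inr (p, t)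

/-- The test for the preceding position. -/
def predB (L : List ℕ) (t q : ℕ) : Bool :=
  decide (q < t) && ((decide (q = 0) || decide (q ∈ L)) &&
    L.all fun s => !decide (s < t) || decide (s ≤ q))

/-- The relation. -/
def relB (n k : ℕ) (S : ℕ → ℕ → ℕ → ℕ → Bool) (d e : Cc) : Bool :=
  match d with
  | Sum.inl p =>
    match e with
    | Sum.inl q => decide (p.1 = q.1) && (!decide (p.2 = 0) && decide (q.2 = 0))
    | Sum.inr q => decide (p.1 = Ve q.1) && (decide (p.2 = 0) &&
        predB (posL n k S q.1) (WW n k) q.2)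
  | Sum.inr p =>
    match e with
    | Sum.inl q => decide (q.1 = Ue p.1) && (decide (p.2 = 0) && decide (q.2 = 0))
    | Sum.inr q => decide (p.1 = q.1) && predB (posL n k S p.1) p.2 q.2

section

variable {n k : ℕ} {S : ℕ → ℕ → ℕ → ℕ → Bool}

theorem mem_vl {d : Cc} : d ∈ vl n k ↔ (dat n k S).Mem d := by
  rw [vl, List.mem_append, List.mem_flatMap, List.mem_flatMap]
  rcases d with ⟨x, i⟩ | ⟨p, t⟩
  · constructor
    · rintro (⟨y, hy, h⟩ | ⟨p, hp, h⟩)
      · rw [List.mem_map] at h
        obtain ⟨i', hi, h⟩ := h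
        rw [Sum.inl.injEq, Prod.mk.injEq] at h
        obtain ⟨rfl, rfl⟩ := h
        exact ⟨List.mem_toFinset.mpr hy, List.mem_range.mp hi⟩
      · rw [List.mem_map] at h
        obtain ⟨i', -, h⟩ := h
        exact absurd h Sum.inr_ne_inl
    · rintro ⟨h1, h2⟩
      exact Or.inl ⟨x, List.mem_toFinset.mp h1,
        List.mem_map_of_mem (f := fun i => (Sum.inl (x, i) : Cc)) (List.mem_range.mpr h2)⟩
  · constructor
    · rintro (⟨y, hy, h⟩ | ⟨q, hq, h⟩)
      · rw [List.mem_map] at h
        obtain ⟨i', -, h⟩ := h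
        exact absurd h Sum.inl_ne_inr
      · rw [List.mem_map] at h
        obtain ⟨i', hi, h⟩ := h
        rw [Sum.inr.injEq, Prod.mk.injEq] at h
        obtain ⟨rfl, rfl⟩ := h
        exact ⟨List.mem_toFinset.mpr hq, List.mem_range.mp hi⟩
    · rintro ⟨h1, h2⟩
      exact Or.inr ⟨p, List.mem_toFinset.mp h1,
        List.mem_map_of_mem (f := fun i => (Sum.inr (p, i) : Cc)) (List.mem_range.mpr h2)⟩

theorem nodup_Rl : (Rl k).Nodup := by
  unfold Rl
  rw [List.nodup_cons]
  constructor
  · simp
  · rw [List.nodup_flatMap]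
    refine ⟨fun i _ => List.nodup_range.map ?_, ?_⟩
    · intro a b h
      simpa using h
    · refine (List.nodup_range (n := k)).imp ?_
      intro a b hab
      show List.Disjoint _ _
      intro d hd hd'
      rw [List.mem_map] at hd hd'
      obtain ⟨u, -, rfl⟩ := hd
      obtain ⟨v, -, h⟩ := hd'
      simp only [Option.some.injEq, Prod.mk.injEq] at h
      exact hab h.1.symm

theorem nodup_vl : (vl n k).Nodup := by
  unfold vl
  rw [List.nodup_append]
  refine ⟨?_, ?_, ?_⟩
  · rw [List.nodup_flatMap]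
    refine ⟨fun i _ => List.nodup_range.map ?_, ?_⟩
    · intro a b h
      simpa using h
    · refine nodup_Rl.imp ?_
      intro a b hab
      show List.Disjoint _ _
      intro d hd hd'
      rw [List.mem_map] at hd hd'
      obtain ⟨u, -, rfl⟩ := hd
      obtain ⟨v, -, h⟩ := hd'
      simp only [Sum.inl.injEq, Prod.mk.injEq] at h
      exact hab h.1.symm
  · rw [List.nodup_flatMap]
    refine ⟨fun i _ => List.nodup_range.map ?_, ?_⟩
    · intro a b h
      simpa using h
    · refine (nodup_Jl k).imp ?_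
      intro a b hab
      show List.Disjoint _ _
      intro d hd hd'
      rw [List.mem_map] at hd hd'
      obtain ⟨u, -, rfl⟩ := hd
      obtain ⟨v, -, h⟩ := hd'
      simp only [Sum.inr.injEq, Prod.mk.injEq] at h
      exact hab h.1.symm
  · intro a ha b hb h
    subst h
    rw [List.mem_flatMap] at ha hb
    obtain ⟨x, -, ha⟩ := ha
    obtain ⟨y, -, hb⟩ := hb
    rw [List.mem_map] at ha hb
    obtain ⟨i, -, rfl⟩ := ha
    obtain ⟨j, -, h⟩ := hb
    exact absurd h Sum.inr_ne_inl

theorem predB_iff {p : ℕ × ℕ × ℕ} {t q : ℕ} :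
    predB (posL n k S p) t q = true ↔ (dat n k S).Pred p t q := by
  unfold predB Dat.Pred
  rw [Bool.and_eq_true, Bool.and_eq_true, decide_eq_true_eq, Bool.or_eq_true, decide_eq_true_eq,
    decide_eq_true_eq, List.all_eq_true]
  refine and_congr Iff.rfl (and_congr Iff.rfl ?_)
  simp only [Bool.or_eq_true, Bool.not_eq_true', decide_eq_false_iff_not, decide_eq_true_eq]
  change (∀ x ∈ posL n k S p, ¬x < t ∨ x ≤ q) ↔ ∀ s, s ∈ posL n k S p → s < t → s ≤ q
  refine forall_congr' fun s => forall_congr' fun _ => ?_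
  omega

theorem relB_iff {d e : Cc} : relB n k S d e = true ↔ (dat n k S).Rel d e := by
  rcases d with ⟨x, i⟩ | ⟨p, t⟩ <;> rcases e with ⟨y, i'⟩ | ⟨q, t'⟩
  · simp only [relB, Dat.Rel, Bool.and_eq_true, decide_eq_true_eq, Bool.not_eq_true',
      decide_eq_false_iff_not, ne_eq]
  · simp only [relB, Dat.Rel, Bool.and_eq_true, decide_eq_true_eq, predB_iff]
    rfl
  · simp only [relB, Dat.Rel, Bool.and_eq_true, decide_eq_true_eq]
    rfl
  · simp only [relB, Dat.Rel, Bool.and_eq_true, decide_eq_true_eq, predB_iff]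

theorem lay : Lay (graphOf (mtxOf (vl n k) (relB n k S))) (phi (vl n k) (relB n k S))
    (dat n k S) := by
  refine ⟨phi_inj nodup_vl _, fun u v => ?_, fun u => mem_vl.mp (phi_mem _ _ u),
    fun d hd => phi_surj _ (mem_vl.mpr hd)⟩
  rw [adj_mtxOf, relB_iff, relB_iff]

end

/-- Edge deletion to components with at most `h` vertices: instances `(G, k, h)` with positive `k`
and `h`; can every connected component be made to have at most `h` vertices by deleting at most
`k` edges? -/
def EdgeDel (x : List (List Bool) × ℕ × ℕ) : Prop :=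
  1 ≤ x.2.1 ∧ 1 ≤ x.2.2 ∧ ∃ E : Finset (Sym2 (Fin x.1.length)),
    (E : Set (Sym2 (Fin x.1.length))) ⊆ (graphOf x.1).edgeSet ∧ E.card ≤ x.2.1 ∧
      ∀ c : ((graphOf x.1).deleteEdges E).ConnectedComponent, c.supp.ncard ≤ x.2.2

theorem comp_iff {T : Type*} {G : SimpleGraph T} {h : ℕ} :
    (∀ c : G.ConnectedComponent, c.supp.ncard ≤ h) ↔ ∀ v, {w | G.Reachable v w}.ncard ≤ h := by
  have key : ∀ v, (G.connectedComponentMk v).supp = {w | G.Reachable v w} := by
    intro v
    ext w
    rw [SimpleGraph.ConnectedComponent.mem_supp_iff, SimpleGraph.ConnectedComponent.eq]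
    exact ⟨fun h => h.symm, fun h => h.symm⟩
  constructor
  · intro h1 v
    rw [← key]
    exact h1 _
  · intro h1 c
    induction c using SimpleGraph.ConnectedComponent.ind with
    | h v =>
      rw [key]
      exact h1 v

theorem KK_pos {k : ℕ} (hk : 0 < k) : 1 ≤ KK k := by
  have : (2, 0, 0) ∈ Jl k := by
    rw [mem_Jl]
    simp only
    omega
  exact List.length_pos_of_mem this

theorem KK_le (k : ℕ) : KK k ≤ 3 * (k * k) := by
  rw [← card_S]
  have h : (Jl k).toFinset ⊆ (Finset.range 3) ×ˢ ((Finset.range k) ×ˢ (Finset.range k)) := by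
    intro p hp
    rw [List.mem_toFinset, mem_Jl] at hp
    rw [Finset.mem_product, Finset.mem_product, Finset.mem_range, Finset.mem_range,
      Finset.mem_range]
    exact ⟨hp.1, hp.2.1, hp.2.2.1⟩
  refine (Finset.card_le_card h).trans ?_
  rw [Finset.card_product, Finset.card_product, Finset.card_range, Finset.card_range]

theorem edgeDel_iff {n k : ℕ} (hk : 0 < k) {S : ℕ → ℕ → ℕ → ℕ → Bool} :
    EdgeDel (mtxOf (vl n k) (relB n k S), KK k, HH n k) ↔
      ∃ x y : ℕ → ℕ, (∀ i < k, x i < n) ∧ (∀ i < k, y i < n) ∧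
        ∀ i < k, ∀ j < k, S i j (x i) (y j) = true := by
  have hL := lay (n := n) (k := k) (S := S)
  constructor
  · rintro ⟨-, -, E, -, hE, hc⟩
    simp only at hE hc
    obtain ⟨s, hs, hl⟩ := sol_of_cut hL wf (fun x _ y _ _ => heavy x y)
      (by rw [show (dat n k S).S.card = KK k from card_S]; exact hE) (comp_iff.mp hc)
    exact tiling_of_sol hs hl
  · rintro ⟨x, y, hx, hy, hS⟩
    obtain ⟨s, hs, hl⟩ := sol_of_tiling hx hy hS
    obtain ⟨E, hE1, hE2, hE3⟩ := cut_of_sol hL wf hs hl
    refine ⟨KK_pos hk, by simp only [HH]; omega, E, hE1, ?_, comp_iff.mpr hE3⟩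
    rw [show (dat n k S).S.card = KK k from card_S] at hE2
    exact hE2

/-- The sets of the grid tiling problem. -/
def SM (M : List (List Bool)) (i j a b : ℕ) : Bool :=
  if i = j then decide (a = b) else adjB M a b

theorem clique_iff (M : List (List Bool)) (k : ℕ) :
    HasClique (M, k) ↔ ∃ x y : ℕ → ℕ, (∀ i < k, x i < M.length) ∧ (∀ i < k, y i < M.length) ∧
      ∀ i < k, ∀ j < k, SM M i j (x i) (y j) = true := by
  classical
  constructor
  · rintro ⟨C, hC⟩
    have hl : C.toList.length = k := by rw [Finset.length_toList]; exact hC.card_eq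
    refine ⟨fun i => if h : i < C.toList.length then (C.toList[i] : ℕ) else 0,
      fun i => if h : i < C.toList.length then (C.toList[i] : ℕ) else 0, ?_, ?_, ?_⟩
    · intro i hi
      simp only [dif_pos (hl.symm ▸ hi : i < C.toList.length)]
      exact (C.toList[i]).2
    · intro i hi
      simp only [dif_pos (hl.symm ▸ hi : i < C.toList.length)]
      exact (C.toList[i]).2
    · intro i hi j hj
      have hi' : i < C.toList.length := hl.symm ▸ hi
      have hj' : j < C.toList.length := hl.symm ▸ hj
      simp only [dif_pos hi', dif_pos hj']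
      unfold SM
      split_ifs with h
      · subst h
        simp
      · rw [adjB_iff]
        refine hC.isClique (Finset.mem_coe.mpr (Finset.mem_toList.mp (List.getElem_mem hi')))
          (Finset.mem_coe.mpr (Finset.mem_toList.mp (List.getElem_mem hj'))) ?_
        intro he
        exact h ((C.nodup_toList.getElem_inj_iff).mp he)
  · rintro ⟨x, y, hx, hy, hS⟩
    have hxy : ∀ i < k, x i = y i := by
      intro i hi
      have := hS i hi i hi
      simpa [SM] using this
    have hadj : ∀ i < k, ∀ j < k, i ≠ j → adjB M (x i) (x j) = true := by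
      intro i hi j hj hij
      have := hS i hi j hj
      rw [SM, if_neg hij, ← hxy j hj] at this
      exact this
    have hadj' : ∀ i j : Fin k, i ≠ j → (graphOf M).Adj ⟨x i, hx i i.2⟩ ⟨x j, hx j j.2⟩ := by
      intro i j hij
      rw [← adjB_iff]
      exact hadj i i.2 j j.2 (fun h => hij (Fin.ext h))
    refine ⟨Finset.univ.image fun i : Fin k => ⟨x i, hx i i.2⟩, ?_, ?_⟩
    · intro u hu v hv huv
      rw [Finset.mem_coe, Finset.mem_image] at hu hv
      obtain ⟨i, -, rfl⟩ := hu
      obtain ⟨j, -, rfl⟩ := hv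
      exact hadj' i j (fun h => huv (by rw [h]))
    · rw [Finset.card_image_of_injective, Finset.card_univ, Fintype.card_fin]
      intro i j hij
      by_contra hne
      exact (hadj' i j hne).ne hij

theorem clique_min (M : List (List Bool)) (k : ℕ) :
    HasClique (M, k) ↔ HasClique (M, min k (M.length + 1)) := by
  by_cases h : k ≤ M.length + 1
  · rw [min_eq_left h]
  · have h1 : ∀ m, M.length < m → ¬ HasClique (M, m) := by
      rintro m hm ⟨C, hC⟩
      have h2 := Finset.card_le_univ C
      rw [hC.card_eq, Fintype.card_fin] at h2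
      simp only at h2
      omega
    constructor
    · intro h2
      exact absurd h2 (h1 k (by omega))
    · intro h2
      exact absurd h2 (h1 _ (by omega))

/-- The reduction. -/
def red (x : List (List Bool) × ℕ) : List (List Bool) × ℕ × ℕ :=
  if min x.2 (x.1.length + 1) = 0 then ([], 1, 1) else
    (mtxOf (vl x.1.length (min x.2 (x.1.length + 1)))
      (relB x.1.length (min x.2 (x.1.length + 1)) (SM x.1)),
      KK (min x.2 (x.1.length + 1)), HH x.1.length (min x.2 (x.1.length + 1)))

theorem red_iff (x : List (List Bool) × ℕ) : HasClique x ↔ EdgeDel (red x) := by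
  obtain ⟨M, k⟩ := x
  rw [clique_min]
  unfold red
  simp only
  split_ifs with h
  · rw [h]
    constructor
    · intro _
      refine ⟨le_rfl, le_rfl, ∅, by simp, by simp, fun c => ?_⟩
      induction c using SimpleGraph.ConnectedComponent.ind with
      | h v => exact absurd v.2 (by simp)
    · intro _
      exact ⟨∅, by simp⟩
  · rw [edgeDel_iff (Nat.pos_of_ne_zero h), clique_iff]

theorem red_param (x : List (List Bool) × ℕ) : (red x).2.1 ≤ 3 * (x.2 * x.2) + 1 := by
  unfold red
  split_ifs
  · simp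
  · refine (KK_le _).trans ?_
    have h1 : min x.2 (x.1.length + 1) ≤ x.2 := min_le_left _ _
    have h2 := Nat.mul_le_mul h1 h1
    omega

end Q224.ED
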