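import Pool.Agent.Q224.ED.Red

/-!
# The reduction is computable in polynomial time
-/

set_option autoImplicit false

namespace Pool.Agent.NPC.Q224ED

open _root_.Q224.ED _root_.Q224.RD Pool.Agent.NPC.H628F Pool.Agent.H628R2.Forb Pool.Agent.H633R2
open Pool.Agent.NPC.Q224RD

variable {α : Type} [TEnc α]

theorem p_Jl {k : α → ℕ} (hk : UPoly k) : Poly (fun a => Jl (k a)) := by
  unfold Jl
  refine Poly.flatMap (F := fun (a : α) (c : ℕ) => (List.range (k a)).flatMap fun i =>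
    ((List.range (k a)).filter fun j => !(decide (c = 0) && decide (k a ≤ j + 1)) &&
      !(decide (c = 1) && decide (k a ≤ i + 1))).map fun j => (c, i, j)) (Poly.const _) ?_
  refine Poly.flatMap (F := fun (a : α × ℕ) (i : ℕ) =>
    ((List.range (k a.1)).filter fun j => !(decide (a.2 = 0) && decide (k a.1 ≤ j + 1)) &&
      !(decide (a.2 = 1) && decide (k a.1 ≤ i + 1))).map fun j => (a.2, i, j))
      (hk.comp p_fst).range ?_
  refine Poly.map (F := fun (a : (α × ℕ) × ℕ) (j : ℕ) => (a.1.2, a.2, j)) ?_ ?_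
  · refine Poly.filter (p := fun (a : (α × ℕ) × ℕ) (j : ℕ) =>
      !(decide (a.1.2 = 0) && decide (k a.1.1 ≤ j + 1)) &&
      !(decide (a.1.2 = 1) && decide (k a.1.1 ≤ a.2 + 1))) (hk.comp (Poly.fst p_fst)).range ?_
    have h1 : Poly (fun x : ((α × ℕ) × ℕ) × ℕ => x.1.1.2) := Poly.snd (Poly.fst p_fst)
    have h2 : Poly (fun x : ((α × ℕ) × ℕ) × ℕ => k x.1.1.1) :=
      hk.toPoly.comp (Poly.fst (Poly.fst p_fst))
    have h3 : Poly (fun x : ((α × ℕ) × ℕ) × ℕ => x.1.2) := Poly.snd p_fst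
    exact Poly.and (Poly.not (Poly.and (Poly.decide_eq h1 (Poly.const 0))
      (Poly.decide_le h2 (Poly.succ p_snd)))) (Poly.not (Poly.and
        (Poly.decide_eq h1 (Poly.const 1)) (Poly.decide_le h2 (Poly.succ h3))))
  · exact Poly.pair (Poly.snd (Poly.fst p_fst)) (Poly.pair (Poly.snd p_fst) p_snd)

theorem p_Rl {k : α → ℕ} (hk : UPoly k) : Poly (fun a => Rl (k a)) := by
  unfold Rl
  refine Poly.cons (Poly.const none) (Poly.flatMap (F := fun (a : α) (i : ℕ) =>
    (List.range (k a)).map fun j => some (i, j)) hk.range ?_)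
  exact Poly.map (F := fun (a : α × ℕ) (j : ℕ) => some (a.2, j)) (hk.comp p_fst).range
    (Poly.some (Poly.pair (Poly.snd p_fst) p_snd))

theorem p_Ue {p : α → ℕ × ℕ × ℕ} (hp : Poly p) : Poly (fun a => Ue (p a)) := by
  unfold Ue
  exact Poly.ite (Poly.decide_eq (Poly.fst hp) (Poly.const 2)) (Poly.const none)
    (Poly.some (Poly.pair (Poly.fst (Poly.snd hp)) (Poly.snd (Poly.snd hp))))

theorem p_Ve {p : α → ℕ × ℕ × ℕ} (hp : Poly p) : Poly (fun a => Ve (p a)) := by
  unfold Ve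
  have h1 := Poly.fst (Poly.snd hp)
  have h2 := Poly.snd (Poly.snd hp)
  exact Poly.ite (Poly.decide_eq (Poly.fst hp) (Poly.const 0))
    (Poly.some (Poly.pair h1 (Poly.succ h2)))
    (Poly.ite (Poly.decide_eq (Poly.fst hp) (Poly.const 1))
      (Poly.some (Poly.pair (Poly.succ h1) h2)) (Poly.some (Poly.pair h1 h2)))

theorem u_KK {k : α → ℕ} (hk : UPoly k) : UPoly (fun a => KK (k a)) := UPoly.length (p_Jl hk)

theorem u_QQ {k : α → ℕ} (hk : UPoly k) : UPoly (fun a => QQ (k a)) :=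
  UPoly.add (u_KK hk) (UPoly.const 1)

theorem u_TT {n : α → ℕ} (hn : UPoly n) : UPoly (fun a => TT (n a)) := by
  have h := UPoly.eval (UPoly.add hn (UPoly.const 1)) (Polynomial.C 2 * Polynomial.X ^ 4)
  simpa [TT] using h

theorem u_WW {n k : α → ℕ} (hn : UPoly n) (hk : UPoly k) : UPoly (fun a => WW (n a) (k a)) :=
  UPoly.mul (u_QQ hk) (UPoly.add (UPoly.mul (UPoly.const 2) (u_TT hn)) (UPoly.const 2))

theorem u_bs {n k : α → ℕ} (hn : UPoly n) (hk : UPoly k) : UPoly (fun a => bs (n a) (k a)) :=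
  UPoly.add (UPoly.const 1) (UPoly.mul (u_QQ hk) (u_TT hn))

theorem u_HH {n k : α → ℕ} (hn : UPoly n) (hk : UPoly k) : UPoly (fun a => HH (n a) (k a)) :=
  UPoly.add (UPoly.add (UPoly.mul (UPoly.mul (UPoly.const 2) (u_KK hk)) (u_WW hn hk))
    (UPoly.mul (UPoly.const 2) (u_KK hk))) (UPoly.const 2)

theorem p_co {n m : α → ℕ} (hn : Poly n) (hm : Poly m) : Poly (fun a => co (n a) (m a)) := by
  unfold co
  exact Poly.ite (Poly.decide_eq (Poly.mod hm (Poly.const 2)) (Poly.const 0)) (Poly.const 1)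
    (Poly.succ hn)

theorem p_ps {n k v m : α → ℕ} (hn : UPoly n) (hk : UPoly k) (hv : Poly v) (hm : Poly m) :
    Poly (fun a => ps (n a) (k a) (v a) (m a)) := by
  unfold ps
  exact Poly.add (Poly.const 1) (Poly.mul (u_QQ hk).toPoly
    (Poly.sub (Poly.add (u_TT hn).toPoly hv) hm))

theorem p_vv {n m b : α → ℕ} (hn : Poly n) (hm : Poly m) (hb : Poly b) :
    Poly (fun a => b a * (n a + 1) ^ 2 * co (n a) (m a)) := by
  have h : Poly (fun a => b a * ((n a + 1) * (n a + 1)) * co (n a) (m a)) :=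
    Poly.mul (Poly.mul hb (Poly.mul (Poly.succ hn) (Poly.succ hn))) (p_co hn hm)
  exact h.congr fun a => by rw [sq]

theorem p_vp {n k i j c b : α → ℕ} (hn : Poly n) (hk : Poly k) (hi : Poly i) (hj : Poly j)
    (hc : Poly c) (hb : Poly b) : Poly (fun a => vp (n a) (k a) (i a) (j a) (c a) (b a)) := by
  unfold vp
  exact Poly.add (Poly.ite (Poly.decide_lt (Poly.succ hj) hk) (Poly.mul hc (p_co hn hj))
    (Poly.const 0)) (Poly.ite (Poly.decide_lt (Poly.succ hi) hk) (p_vv hn hi hb) (Poly.const 0))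

theorem p_vm {n i j c b : α → ℕ} (hn : Poly n) (hi : Poly i) (hj : Poly j)
    (hc : Poly c) (hb : Poly b) : Poly (fun a => vm (n a) (i a) (j a) (c a) (b a)) := by
  unfold vm
  have hj' : Poly (fun a => j a - 1) := Poly.sub hj (Poly.const 1)
  have hi' : Poly (fun a => i a - 1) := Poly.sub hi (Poly.const 1)
  exact Poly.add (Poly.ite (Poly.decide_lt (Poly.const 0) hj) (Poly.mul hc (p_co hn hj'))
    (Poly.const 0)) (Poly.ite (Poly.decide_lt (Poly.const 0) hi) (p_vv hn hi' hb) (Poly.const 0))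

theorem p_SM {M : α → List (List Bool)} {i j c b : α → ℕ} (hM : Poly M) (hi : Poly i)
    (hj : Poly j) (hc : Poly c) (hb : Poly b) :
    Poly (fun a => SM (M a) (i a) (j a) (c a) (b a)) := by
  unfold SM
  exact Poly.ite (Poly.decide_eq hi hj) (Poly.decide_eq hc hb) (p_adjB hM hc hb)

theorem p_posL {M : α → List (List Bool)} {n k : α → ℕ} {p : α → ℕ × ℕ × ℕ} (hM : Poly M)
    (hn : UPoly n) (hk : UPoly k) (hp : Poly p) :
    Poly (fun a => posL (n a) (k a) (SM (M a)) (p a)) := by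
  unfold posL
  refine Poly.ite (Poly.decide_eq (Poly.fst hp) (Poly.const 0)) ?_
    (Poly.ite (Poly.decide_eq (Poly.fst hp) (Poly.const 1)) ?_ ?_)
  · refine Poly.map (F := fun (a : α) (c : ℕ) => ps (n a) (k a) (c * co (n a) (p a).2.2) 0)
      hn.range ?_
    exact p_ps (hn.comp p_fst) (hk.comp p_fst) (Poly.mul p_snd (p_co (hn.toPoly.comp p_fst)
      (Poly.snd (Poly.snd (hp.comp p_fst))))) (Poly.const 0)
  · refine Poly.map (F := fun (a : α) (b : ℕ) =>
      ps (n a) (k a) (b * (n a + 1) ^ 2 * co (n a) (p a).2.1) 0) hn.range ?_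
    exact p_ps (hn.comp p_fst) (hk.comp p_fst) (p_vv (hn.toPoly.comp p_fst)
      (Poly.fst (Poly.snd (hp.comp p_fst))) p_snd) (Poly.const 0)
  · refine Poly.flatMap (F := fun (a : α) (c : ℕ) => ((List.range (n a)).filter fun b =>
      SM (M a) (p a).2.1 (p a).2.2 c b).map fun b => ps (n a) (k a)
        (vp (n a) (k a) (p a).2.1 (p a).2.2 c b) (vm (n a) (p a).2.1 (p a).2.2 c b)) hn.range ?_
    refine Poly.map (F := fun (a : α × ℕ) (b : ℕ) => ps (n a.1) (k a.1)
        (vp (n a.1) (k a.1) (p a.1).2.1 (p a.1).2.2 a.2 b)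
        (vm (n a.1) (p a.1).2.1 (p a.1).2.2 a.2 b)) ?_ ?_
    · refine Poly.filter (p := fun (a : α × ℕ) (b : ℕ) =>
        SM (M a.1) (p a.1).2.1 (p a.1).2.2 a.2 b) (hn.comp p_fst).range ?_
      have h1 := hp.comp (Poly.fst (p_fst (α := α × ℕ) (β := ℕ)))
      exact p_SM (hM.comp (Poly.fst p_fst)) (Poly.fst (Poly.snd h1)) (Poly.snd (Poly.snd h1))
        (Poly.snd p_fst) p_snd
    · have h0 := Poly.fst (p_fst (α := α × ℕ) (β := ℕ))
      have h1 := hp.comp h0
      have hi := Poly.fst (Poly.snd h1)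
      have hj := Poly.snd (Poly.snd h1)
      have hc : Poly (fun x : (α × ℕ) × ℕ => x.1.2) := Poly.snd p_fst
      exact p_ps (hn.comp h0) (hk.comp h0) (p_vp (hn.toPoly.comp h0) (hk.toPoly.comp h0) hi hj hc
        p_snd) (p_vm (hn.toPoly.comp h0) hi hj hc p_snd)

theorem p_beta {n k : α → ℕ} {x : α → Option (ℕ × ℕ)} (hn : UPoly n) (hk : UPoly k)
    (hx : Poly x) : Poly (fun a => beta (n a) (k a) (x a)) := by
  unfold beta
  refine Poly.sum (Poly.map (F := fun (a : α) (p : ℕ × ℕ × ℕ) =>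
    (if Ue p = x a then bs (n a) (k a) else 0) +
    if Ve p = x a then WW (n a) (k a) - bs (n a) (k a) else 0) (p_Jl hk) ?_)
  have hb := (u_bs hn hk).toPoly.comp (p_fst (α := α) (β := ℕ × ℕ × ℕ))
  have hw := (u_WW hn hk).toPoly.comp (p_fst (α := α) (β := ℕ × ℕ × ℕ))
  exact Poly.add (Poly.ite (Poly.decide_eq (p_Ue p_snd) (hx.comp p_fst)) hb (Poly.const 0))
    (Poly.ite (Poly.decide_eq (p_Ve p_snd) (hx.comp p_fst)) (Poly.sub hw hb) (Poly.const 0))

theorem p_vl {n k : α → ℕ} (hn : UPoly n) (hk : UPoly k) : Poly (fun a => vl (n a) (k a)) := by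
  unfold vl
  refine Poly.append ?_ ?_
  · refine Poly.flatMap (F := fun (a : α) (x : Option (ℕ × ℕ)) =>
      (List.range (HH (n a) (k a) - beta (n a) (k a) x)).map fun i => (Sum.inl (x, i) : Cc))
      (p_Rl hk) ?_
    have h1 : UPoly (fun q : α × Option (ℕ × ℕ) =>
        HH (n q.1) (k q.1) - beta (n q.1) (k q.1) q.2) := by
      refine UPoly.of_le (Poly.sub ((u_HH hn hk).toPoly.comp p_fst)
        (p_beta (hn.comp p_fst) (hk.comp p_fst) p_snd)) ((u_HH hn hk).comp p_fst)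
        fun a => Nat.sub_le _ _
    refine Poly.map (F := fun (a : α × Option (ℕ × ℕ)) (i : ℕ) => (Sum.inl (a.2, i) : Cc))
      h1.range ?_
    exact Poly.inl (Poly.pair (Poly.snd p_fst) p_snd)
  · refine Poly.flatMap (F := fun (a : α) (p : ℕ × ℕ × ℕ) =>
      (List.range (WW (n a) (k a))).map fun t => (Sum.inr (p, t) : Cc)) (p_Jl hk) ?_
    refine Poly.map (F := fun (a : α × (ℕ × ℕ × ℕ)) (t : ℕ) => (Sum.inr (a.2, t) : Cc))
      ((u_WW hn hk).comp p_fst).range ?_
    exact Poly.inr (Poly.pair (Poly.snd p_fst) p_snd)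

theorem p_predB {L : α → List ℕ} {t q : α → ℕ} (hL : Poly L) (ht : Poly t) (hq : Poly q) :
    Poly (fun a => predB (L a) (t a) (q a)) := by
  unfold predB
  refine Poly.and (Poly.decide_lt hq ht) (Poly.and (Poly.or (Poly.decide_eq hq (Poly.const 0))
    (Poly.decide_mem hq hL)) (Poly.all (p := fun (a : α) (s : ℕ) =>
      !decide (s < t a) || decide (s ≤ q a)) hL ?_))
  exact Poly.or (Poly.not (Poly.decide_lt p_snd (ht.comp p_fst)))
    (Poly.decide_le p_snd (hq.comp p_fst))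

theorem p_relB1 {M : α → List (List Bool)} {n k : α → ℕ} {d : α → Option (ℕ × ℕ) × ℕ}
    {e : α → Cc} (hM : Poly M) (hn : UPoly n) (hk : UPoly k) (hd : Poly d) (he : Poly e) :
    Poly (fun a => relB (n a) (k a) (SM (M a)) (Sum.inl (d a)) (e a)) := by
  have h1 : Poly (fun x : α × (Option (ℕ × ℕ) × ℕ) => decide ((d x.1).1 = x.2.1) &&
      (!decide ((d x.1).2 = 0) && decide (x.2.2 = 0))) := by
    have h := hd.comp (p_fst (α := α) (β := Option (ℕ × ℕ) × ℕ))
    exact Poly.and (Poly.decide_eq (Poly.fst h) (Poly.fst p_snd))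
      (Poly.and (Poly.not (Poly.decide_eq (Poly.snd h) (Poly.const 0)))
        (Poly.decide_eq (Poly.snd p_snd) (Poly.const 0)))
  have h2 : Poly (fun x : α × ((ℕ × ℕ × ℕ) × ℕ) => decide ((d x.1).1 = Ve x.2.1) &&
      (decide ((d x.1).2 = 0) && predB (posL (n x.1) (k x.1) (SM (M x.1)) x.2.1)
        (WW (n x.1) (k x.1)) x.2.2)) := by
    have h := hd.comp (p_fst (α := α) (β := (ℕ × ℕ × ℕ) × ℕ))
    exact Poly.and (Poly.decide_eq (Poly.fst h) (p_Ve (Poly.fst p_snd)))
      (Poly.and (Poly.decide_eq (Poly.snd h) (Poly.const 0))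
        (p_predB (p_posL (hM.comp p_fst) (hn.comp p_fst) (hk.comp p_fst) (Poly.fst p_snd))
          ((u_WW hn hk).toPoly.comp p_fst) (Poly.snd p_snd)))
  refine (Poly.sumCases (g := fun (a : α) (q : Option (ℕ × ℕ) × ℕ) => decide ((d a).1 = q.1) &&
      (!decide ((d a).2 = 0) && decide (q.2 = 0)))
    (h := fun (a : α) (q : (ℕ × ℕ × ℕ) × ℕ) => decide ((d a).1 = Ve q.1) &&
      (decide ((d a).2 = 0) && predB (posL (n a) (k a) (SM (M a)) q.1)
        (WW (n a) (k a)) q.2)) he h1 h2).congr fun a => ?_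
  rcases e a with q | q <;> rfl

theorem p_relB2 {M : α → List (List Bool)} {n k : α → ℕ} {d : α → (ℕ × ℕ × ℕ) × ℕ}
    {e : α → Cc} (hM : Poly M) (hn : UPoly n) (hk : UPoly k) (hd : Poly d) (he : Poly e) :
    Poly (fun a => relB (n a) (k a) (SM (M a)) (Sum.inr (d a)) (e a)) := by
  have h1 : Poly (fun x : α × (Option (ℕ × ℕ) × ℕ) => decide (x.2.1 = Ue (d x.1).1) &&
      (decide ((d x.1).2 = 0) && decide (x.2.2 = 0))) := by
    have h := hd.comp (p_fst (α := α) (β := Option (ℕ × ℕ) × ℕ))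
    exact Poly.and (Poly.decide_eq (Poly.fst p_snd) (p_Ue (Poly.fst h)))
      (Poly.and (Poly.decide_eq (Poly.snd h) (Poly.const 0))
        (Poly.decide_eq (Poly.snd p_snd) (Poly.const 0)))
  have h2 : Poly (fun x : α × ((ℕ × ℕ × ℕ) × ℕ) => decide ((d x.1).1 = x.2.1) &&
      predB (posL (n x.1) (k x.1) (SM (M x.1)) (d x.1).1) (d x.1).2 x.2.2) := by
    have h := hd.comp (p_fst (α := α) (β := (ℕ × ℕ × ℕ) × ℕ))
    exact Poly.and (Poly.decide_eq (Poly.fst h) (Poly.fst p_snd))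
      (p_predB (p_posL (hM.comp p_fst) (hn.comp p_fst) (hk.comp p_fst) (Poly.fst h))
        (Poly.snd h) (Poly.snd p_snd))
  refine (Poly.sumCases (g := fun (a : α) (q : Option (ℕ × ℕ) × ℕ) =>
      decide (q.1 = Ue (d a).1) && (decide ((d a).2 = 0) && decide (q.2 = 0)))
    (h := fun (a : α) (q : (ℕ × ℕ × ℕ) × ℕ) => decide ((d a).1 = q.1) &&
      predB (posL (n a) (k a) (SM (M a)) (d a).1) (d a).2 q.2) he h1 h2).congr fun a => ?_
  rcases e a with q | q <;> rfl

theorem p_relB {M : α → List (List Bool)} {n k : α → ℕ} {d e : α → Cc} (hM : Poly M)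
    (hn : UPoly n) (hk : UPoly k) (hd : Poly d) (he : Poly e) :
    Poly (fun a => relB (n a) (k a) (SM (M a)) (d a) (e a)) := by
  have h1 : Poly (fun x : α × (Option (ℕ × ℕ) × ℕ) =>
      relB (n x.1) (k x.1) (SM (M x.1)) (Sum.inl x.2) (e x.1)) :=
    p_relB1 (hM.comp p_fst) (hn.comp p_fst) (hk.comp p_fst) p_snd (he.comp p_fst)
  have h2 : Poly (fun x : α × ((ℕ × ℕ × ℕ) × ℕ) =>
      relB (n x.1) (k x.1) (SM (M x.1)) (Sum.inr x.2) (e x.1)) :=
    p_relB2 (hM.comp p_fst) (hn.comp p_fst) (hk.comp p_fst) p_snd (he.comp p_fst)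
  refine (Poly.sumCases (g := fun (a : α) (p : Option (ℕ × ℕ) × ℕ) =>
      relB (n a) (k a) (SM (M a)) (Sum.inl p) (e a))
    (h := fun (a : α) (p : (ℕ × ℕ × ℕ) × ℕ) =>
      relB (n a) (k a) (SM (M a)) (Sum.inr p) (e a)) hd h1 h2).congr fun a => ?_
  rcases d a with p | p <;> rfl

theorem p_red : Poly red := by
  have hM : Poly (fun x : List (List Bool) × ℕ => x.1) := p_fst
  have hn : UPoly (fun x : List (List Bool) × ℕ => x.1.length) := UPoly.length hM
  have hn1 : UPoly (fun x : List (List Bool) × ℕ => x.1.length + 1) :=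
    UPoly.add hn (UPoly.const 1)
  have hk : UPoly (fun x : List (List Bool) × ℕ => min x.2 (x.1.length + 1)) :=
    UPoly.of_le (Poly.min p_snd hn1.toPoly) hn1 (fun _ => min_le_right _ _)
  unfold red
  refine Poly.ite (Poly.decide_eq hk.toPoly (Poly.const 0)) (Poly.const _) ?_
  refine Poly.pair ?_ (Poly.pair (u_KK hk).toPoly (u_HH hn hk).toPoly)
  unfold mtxOf
  refine Poly.map (F := fun (x : List (List Bool) × ℕ) (d : Cc) =>
    (vl x.1.length (min x.2 (x.1.length + 1))).map fun e =>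
      relB x.1.length (min x.2 (x.1.length + 1)) (SM x.1) d e) (p_vl hn hk) ?_
  refine Poly.map (F := fun (x : (List (List Bool) × ℕ) × Cc) (e : Cc) =>
    relB x.1.1.length (min x.1.2 (x.1.1.length + 1)) (SM x.1.1) x.2 e)
      ((p_vl hn hk).comp p_fst) ?_
  have h0 : Poly (fun x : ((List (List Bool) × ℕ) × Cc) × Cc => x.1.1) := Poly.fst p_fst
  exact p_relB (hM.comp h0) (hn.comp h0) (hk.comp h0) (Poly.snd p_fst) p_snd

/-- Edge deletion to small components is W[1]-hard parameterized by the number of deletions. -/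
theorem w1Hard : W1Hard (fun x : List (List Bool) × ℕ × ℕ => x.2.1) EdgeDel := by
  refine W1Hard.of_clique ⟨red, fun n => 3 * (n * n) + 1, FptTime.of_poly p_red, ?_,
    fun x => ⟨red_iff x, red_param x⟩⟩
  exact (Primrec.nat_add.comp (Primrec.nat_mul.comp (Primrec.const 3)
    (Primrec.nat_mul.comp Primrec.id Primrec.id)) (Primrec.const 1)).to_comp

end Pool.Agent.NPC.Q224ED
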