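import Pool.Agent.Q224.ED.Graph

/-!
# Grid tilings and the system of the threads
-/

set_option autoImplicit false

namespace Q224.ED

open Finset

/-- The threads: `(0, i, j)` joins the cells `(i, j)` and `(i, j + 1)`, `(1, i, j)` joins the cells
`(i, j)` and `(i + 1, j)`, and `(2, i, j)` joins the extra hub to the cell `(i, j)`. -/
def Jl (k : ℕ) : List (ℕ × ℕ × ℕ) :=
  (List.range 3).flatMap fun c => (List.range k).flatMap fun i =>
    ((List.range k).filter fun j => !(decide (c = 0) && decide (k ≤ j + 1)) &&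
      !(decide (c = 1) && decide (k ≤ i + 1))).map fun j => (c, i, j)

/-- The hubs. -/
def Rl (k : ℕ) : List (Option (ℕ × ℕ)) :=
  none :: (List.range k).flatMap fun i => (List.range k).map fun j => some (i, j)

theorem mem_Jl {k : ℕ} {p : ℕ × ℕ × ℕ} : p ∈ Jl k ↔ p.1 < 3 ∧ p.2.1 < k ∧ p.2.2 < k ∧
    (p.1 = 0 → p.2.2 + 1 < k) ∧ (p.1 = 1 → p.2.1 + 1 < k) := by
  obtain ⟨c, i, j⟩ := p
  simp only [Jl, List.mem_flatMap, List.mem_range, List.mem_map, List.mem_filter, Prod.mk.injEq,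
    Bool.and_eq_true, Bool.not_eq_true', Bool.and_eq_false_iff, decide_eq_false_iff_not]
  constructor
  · rintro ⟨c', h1, i', h2, j', ⟨h3, h4⟩, rfl, rfl, rfl⟩
    omega
  · rintro ⟨h1, h2, h3, h4, h5⟩
    exact ⟨c, h1, i, h2, j, ⟨h3, by omega⟩, rfl, rfl, rfl⟩

theorem nodup_Jl (k : ℕ) : (Jl k).Nodup := by
  unfold Jl
  rw [List.nodup_flatMap]
  refine ⟨fun c _ => ?_, ?_⟩
  · rw [List.nodup_flatMap]
    refine ⟨fun i _ => ?_, ?_⟩
    · refine (List.nodup_range.filter _).map ?_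
      intro a b h
      simpa using h
    · refine (List.nodup_range (n := k)).imp ?_
      intro a b hab
      show List.Disjoint _ _
      intro d hd hd'
      rw [List.mem_map] at hd hd'
      obtain ⟨u, -, rfl⟩ := hd
      obtain ⟨v, -, h⟩ := hd'
      simp only [Prod.mk.injEq] at h
      exact hab h.2.1.symm
  · refine (List.nodup_range (n := 3)).imp ?_
    intro a b hab
    show List.Disjoint _ _
    intro d hd hd'
    rw [List.mem_flatMap] at hd hd'
    obtain ⟨i, -, hd⟩ := hd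
    obtain ⟨i', -, hd'⟩ := hd'
    rw [List.mem_map] at hd hd'
    obtain ⟨u, -, rfl⟩ := hd
    obtain ⟨v, -, h⟩ := hd'
    simp only [Prod.mk.injEq] at h
    exact hab h.1.symm

theorem mem_Rl {k : ℕ} {x : Option (ℕ × ℕ)} : x ∈ Rl k ↔ x = none ∨
    ∃ i < k, ∃ j < k, x = some (i, j) := by
  simp only [Rl, List.mem_cons, List.mem_flatMap, List.mem_range, List.mem_map]
  refine or_congr Iff.rfl ?_
  constructor
  · rintro ⟨i, hi, j, hj, rfl⟩
    exact ⟨i, hi, j, hj, rfl⟩
  · rintro ⟨i, hi, j, hj, rfl⟩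
    exact ⟨i, hi, j, hj, rfl⟩

/-- The first end. -/
def Ue (p : ℕ × ℕ × ℕ) : Option (ℕ × ℕ) := if p.1 = 2 then none else some (p.2.1, p.2.2)

/-- The second end. -/
def Ve (p : ℕ × ℕ × ℕ) : Option (ℕ × ℕ) :=
  if p.1 = 0 then some (p.2.1, p.2.2 + 1) else
    if p.1 = 1 then some (p.2.1 + 1, p.2.2) else some (p.2.1, p.2.2)

/-- The number of threads. -/
def KK (k : ℕ) : ℕ := (Jl k).length

/-- The modulus. -/
def QQ (k : ℕ) : ℕ := KK k + 1

/-- The offset. -/
def TT (n : ℕ) : ℕ := 2 * (n + 1) ^ 4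

/-- The length. -/
def WW (n k : ℕ) : ℕ := QQ k * (2 * TT n + 2)

/-- The digit. -/
def co (n m : ℕ) : ℕ := if m % 2 = 0 then 1 else n + 1

/-- The position of a value. -/
def ps (n k v m : ℕ) : ℕ := 1 + QQ k * (TT n + v - m)

/-- The value of a pair, positive part. -/
def vp (n k i j a b : ℕ) : ℕ :=
  (if j + 1 < k then a * co n j else 0) + if i + 1 < k then b * (n + 1) ^ 2 * co n i else 0

/-- The value of a pair, negative part. -/
def vm (n i j a b : ℕ) : ℕ :=
  (if 0 < j then a * co n (j - 1) else 0) + if 0 < i then b * (n + 1) ^ 2 * co n (i - 1) else 0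

/-- The allowed positions. -/
def posL (n k : ℕ) (S : ℕ → ℕ → ℕ → ℕ → Bool) (p : ℕ × ℕ × ℕ) : List ℕ :=
  if p.1 = 0 then (List.range n).map fun a => ps n k (a * co n p.2.2) 0 else
    if p.1 = 1 then (List.range n).map fun b => ps n k (b * (n + 1) ^ 2 * co n p.2.1) 0 else
      (List.range n).flatMap fun a => ((List.range n).filter fun b => S p.2.1 p.2.2 a b).map
        fun b => ps n k (vp n k p.2.1 p.2.2 a b) (vm n p.2.1 p.2.2 a b)

/-- The nominal position. -/
def bs (n k : ℕ) : ℕ := 1 + QQ k * TT n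

/-- The nominal load of a hub. -/
def beta (n k : ℕ) (x : Option (ℕ × ℕ)) : ℕ :=
  ((Jl k).map fun p => (if Ue p = x then bs n k else 0) +
    if Ve p = x then WW n k - bs n k else 0).sum

/-- The capacity. -/
def HH (n k : ℕ) : ℕ := 2 * KK k * WW n k + 2 * KK k + 2

/-- The data of the graph. -/
def dat (n k : ℕ) (S : ℕ → ℕ → ℕ → ℕ → Bool) : Dat (Option (ℕ × ℕ)) (ℕ × ℕ × ℕ) where
  S := (Jl k).toFinset
  R := (Rl k).toFinset
  U := Ue
  V := Ve
  W := WW n k
  A p s := s ∈ posL n k S p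
  c x := HH n k - beta n k x

section

variable {n k : ℕ} {S : ℕ → ℕ → ℕ → ℕ → Bool}

theorem card_S : (Jl k).toFinset.card = KK k := List.toFinset_card_of_nodup (nodup_Jl k)

theorem bs_lt : bs n k < WW n k := by
  unfold bs WW
  have : QQ k * (2 * TT n + 2) = QQ k * TT n + QQ k * TT n + 2 * QQ k := by ring
  have h2 : 1 ≤ QQ k := Nat.le_add_left _ _
  omega

theorem beta_le (x : Option (ℕ × ℕ)) : beta n k x ≤ KK k * WW n k := by
  unfold beta KK
  have h := List.sum_le_card_nsmul ((Jl k).map fun p => (if Ue p = x then bs n k else 0) +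
    if Ve p = x then WW n k - bs n k else 0) (WW n k) (by
      intro y hy
      rw [List.mem_map] at hy
      obtain ⟨p, -, rfl⟩ := hy
      have := bs_lt (n := n) (k := k)
      split_ifs <;> omega)
  simpa using h

theorem co_le (m : ℕ) : co n m ≤ n + 1 := by
  unfold co
  split_ifs <;> omega

theorem mul_co_le {a : ℕ} (ha : a < n) (m : ℕ) : a * co n m ≤ (n + 1) ^ 4 := by
  calc a * co n m ≤ (n + 1) * (n + 1) := Nat.mul_le_mul (by omega) (co_le m)
    _ = (n + 1) ^ 2 := by ring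
    _ ≤ (n + 1) ^ 4 := Nat.pow_le_pow_right (by omega) (by omega)

theorem mul_co_le' {b : ℕ} (hb : b < n) (m : ℕ) : b * (n + 1) ^ 2 * co n m ≤ (n + 1) ^ 4 := by
  calc b * (n + 1) ^ 2 * co n m ≤ (n + 1) * (n + 1) ^ 2 * (n + 1) :=
        Nat.mul_le_mul (Nat.mul_le_mul_right _ (by omega)) (co_le m)
    _ = (n + 1) ^ 4 := by ring

theorem vp_le {i j a b : ℕ} (ha : a < n) (hb : b < n) : vp n k i j a b ≤ TT n := by
  unfold vp TT
  have h1 := mul_co_le ha j
  have h2 := mul_co_le' hb i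
  split_ifs <;> omega

theorem vm_le {i j a b : ℕ} (ha : a < n) (hb : b < n) : vm n i j a b ≤ TT n := by
  unfold vm TT
  have h1 := mul_co_le ha (j - 1)
  have h2 := mul_co_le' hb (i - 1)
  split_ifs <;> omega

theorem ps_lt {v m : ℕ} (hv : v ≤ TT n) : 0 < ps n k v m ∧ ps n k v m < WW n k := by
  unfold ps WW
  refine ⟨by omega, ?_⟩
  have h1 : QQ k * (TT n + v - m) ≤ QQ k * (2 * TT n) := Nat.mul_le_mul_left _ (by omega)
  have h2 : QQ k * (2 * TT n + 2) = QQ k * (2 * TT n) + 2 * QQ k := by ring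
  have h3 : 1 ≤ QQ k := Nat.le_add_left _ _
  omega

theorem posL_spec {p : ℕ × ℕ × ℕ} (hp : p.1 < 3) {s : ℕ} (hs : s ∈ posL n k S p) :
    (p.1 = 0 ∧ ∃ a < n, s = ps n k (a * co n p.2.2) 0) ∨
    (p.1 = 1 ∧ ∃ b < n, s = ps n k (b * (n + 1) ^ 2 * co n p.2.1) 0) ∨
    (p.1 = 2 ∧ ∃ a < n, ∃ b < n, S p.2.1 p.2.2 a b = true ∧
      s = ps n k (vp n k p.2.1 p.2.2 a b) (vm n p.2.1 p.2.2 a b)) := by
  unfold posL at hs
  split_ifs at hs with h1 h2
  · rw [List.mem_map] at hs
    obtain ⟨a, ha, rfl⟩ := hs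
    exact Or.inl ⟨h1, a, List.mem_range.mp ha, rfl⟩
  · rw [List.mem_map] at hs
    obtain ⟨a, ha, rfl⟩ := hs
    exact Or.inr (Or.inl ⟨h2, a, List.mem_range.mp ha, rfl⟩)
  · rw [List.mem_flatMap] at hs
    obtain ⟨a, ha, hs⟩ := hs
    rw [List.mem_map] at hs
    obtain ⟨b, hb, rfl⟩ := hs
    rw [List.mem_filter, List.mem_range] at hb
    exact Or.inr (Or.inr ⟨by omega, a, List.mem_range.mp ha, b, hb.1, hb.2, rfl⟩)

theorem wf : (dat n k S).WF := by
  refine ⟨?_, ?_, ?_, ?_, ?_, ?_⟩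
  · intro p hp
    change p ∈ (Jl k).toFinset at hp
    change Ue p ∈ (Rl k).toFinset
    rw [List.mem_toFinset, mem_Jl] at hp
    rw [List.mem_toFinset, mem_Rl]
    unfold Ue
    split_ifs
    · exact Or.inl rfl
    · exact Or.inr ⟨_, hp.2.1, _, hp.2.2.1, rfl⟩
  · intro p hp
    change p ∈ (Jl k).toFinset at hp
    change Ve p ∈ (Rl k).toFinset
    rw [List.mem_toFinset, mem_Jl] at hp
    rw [List.mem_toFinset, mem_Rl]
    unfold Ve
    right
    split_ifs with h1 h2
    · exact ⟨_, hp.2.1, _, hp.2.2.2.1 h1, rfl⟩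
    · exact ⟨_, hp.2.2.2.2 h2, _, hp.2.2.1, rfl⟩
    · exact ⟨_, hp.2.1, _, hp.2.2.1, rfl⟩
  · intro p hp
    change p ∈ (Jl k).toFinset at hp
    change Ue p ≠ Ve p
    rw [List.mem_toFinset, mem_Jl] at hp
    obtain ⟨c, i, j⟩ := p
    simp only at hp
    unfold Ue Ve
    simp only
    split_ifs with h1 h2 h3
    · simp
    · simp
    · simp
    · simp
    · simp
    · omega
  · exact (Nat.zero_le _).trans_lt (bs_lt (n := n) (k := k))
  · intro p hp s hs
    change p ∈ (Jl k).toFinset at hp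
    rw [List.mem_toFinset, mem_Jl] at hp
    change 0 < s ∧ s < WW n k
    rcases posL_spec hp.1 hs with ⟨-, a, ha, rfl⟩ | ⟨-, a, ha, rfl⟩ | ⟨-, a, ha, b, hb, -, rfl⟩
    · exact ps_lt ((mul_co_le ha _).trans (by unfold TT; omega))
    · exact ps_lt ((mul_co_le' ha _).trans (by unfold TT; omega))
    · exact ps_lt (vp_le ha hb)
  · intro x _
    change 0 < HH n k - beta n k x
    have h1 := beta_le (n := n) (k := k) x
    have h2 : 2 * KK k * WW n k = KK k * WW n k + KK k * WW n k := by ring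
    unfold HH
    omega

theorem heavy (x y : Option (ℕ × ℕ)) : HH n k + (Jl k).toFinset.card <
    (dat n k S).c x + (dat n k S).c y := by
  change _ < (HH n k - beta n k x) + (HH n k - beta n k y)
  rw [card_S]
  have h1 := beta_le (n := n) (k := k) x
  have h3 := beta_le (n := n) (k := k) y
  have h2 : 2 * KK k * WW n k = KK k * WW n k + KK k * WW n k := by ring
  unfold HH
  omega

theorem beta_eq (x : Option (ℕ × ℕ)) : beta n k x =
    (∑ p ∈ (Jl k).toFinset with Ue p = x, bs n k) +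
      ∑ p ∈ (Jl k).toFinset with Ve p = x, (WW n k - bs n k) := by
  rw [Finset.sum_filter, Finset.sum_filter, ← Finset.sum_add_distrib, beta,
    ← List.sum_toFinset _ (nodup_Jl k)]

/-- The load in terms of the differences. -/
theorem load_iff {s : ℕ × ℕ × ℕ → ℕ} (hs : ∀ p ∈ (Jl k).toFinset, s p ≤ WW n k)
    (x : Option (ℕ × ℕ)) : (dat n k S).load s x ≤ HH n k ↔
      ∑ p ∈ (Jl k).toFinset with Ue p = x, ((s p : ℤ) - bs n k) ≤
        ∑ p ∈ (Jl k).toFinset with Ve p = x, ((s p : ℤ) - bs n k) := by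
  have hb := beta_eq (n := n) (k := k) x
  have hl := beta_le (n := n) (k := k) x
  have h2 : 2 * KK k * WW n k = KK k * WW n k + KK k * WW n k := by ring
  have hH : beta n k x ≤ HH n k := by unfold HH; omega
  have e1 : ((dat n k S).load s x : ℤ) = (HH n k : ℤ) - beta n k x +
      (∑ p ∈ (Jl k).toFinset with Ue p = x, (s p : ℤ)) +
      ∑ p ∈ (Jl k).toFinset with Ve p = x, ((WW n k : ℤ) - s p) := by
    change (((HH n k - beta n k x) + (∑ p ∈ (Jl k).toFinset with Ue p = x, s p) +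
      ∑ p ∈ (Jl k).toFinset with Ve p = x, (WW n k - s p) : ℕ) : ℤ) = _
    rw [Nat.cast_add, Nat.cast_add, Nat.cast_sub hH, Nat.cast_sum, Nat.cast_sum]
    congr 1
    refine Finset.sum_congr rfl fun p hp => ?_
    rw [Nat.cast_sub (hs p (Finset.mem_of_mem_filter p hp))]
  have e2 : (beta n k x : ℤ) = (∑ p ∈ (Jl k).toFinset with Ue p = x, (bs n k : ℤ)) +
      ∑ p ∈ (Jl k).toFinset with Ve p = x, ((WW n k : ℤ) - bs n k) := by
    rw [hb, Nat.cast_add, Nat.cast_sum, Nat.cast_sum]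
    congr 1
    refine Finset.sum_congr rfl fun p _ => ?_
    rw [Nat.cast_sub bs_lt.le]
  rw [← Nat.cast_le (α := ℤ), e1, e2, Finset.sum_sub_distrib, Finset.sum_sub_distrib,
    Finset.sum_sub_distrib, Finset.sum_sub_distrib]
  constructor <;> intro h <;> linarith

end

end Q224.ED
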