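import Pool.Agent.Q224.ED.Flow

/-!
# The system of the threads is solvable if and only if there is a grid tiling
-/

set_option autoImplicit false

namespace Q224.ED

open Finset

variable {n k : ℕ} {S : ℕ → ℕ → ℕ → ℕ → Bool}

theorem sum_U {i j : ℕ} (hi : i < k) (hj : j < k) (f : ℕ × ℕ × ℕ → ℤ) :
    ∑ p ∈ (Jl k).toFinset with Ue p = some (i, j), f p =
      (if j + 1 < k then f (0, i, j) else 0) + if i + 1 < k then f (1, i, j) else 0 := by
  have e : ((Jl k).toFinset.filter fun p => Ue p = some (i, j)) =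
      (if j + 1 < k then {(0, i, j)} else ∅) ∪ (if i + 1 < k then {(1, i, j)} else ∅) := by
    ext ⟨c, a, b⟩
    rw [Finset.mem_filter, List.mem_toFinset, mem_Jl, Finset.mem_union]
    unfold Ue
    by_cases h1 : j + 1 < k <;> by_cases h2 : i + 1 < k <;> by_cases h3 : c = 2 <;>
      simp [h1, h2, h3] <;> omega
  rw [e, Finset.sum_union]
  · split_ifs <;> simp
  · split_ifs <;> simp

theorem sum_V {i j : ℕ} (hi : i < k) (hj : j < k) (f : ℕ × ℕ × ℕ → ℤ) :
    ∑ p ∈ (Jl k).toFinset with Ve p = some (i, j), f p =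
      (if 0 < j then f (0, i, j - 1) else 0) + (if 0 < i then f (1, i - 1, j) else 0) +
        f (2, i, j) := by
  have e : ((Jl k).toFinset.filter fun p => Ve p = some (i, j)) =
      ((if 0 < j then {(0, i, j - 1)} else ∅) ∪ (if 0 < i then {(1, i - 1, j)} else ∅)) ∪
        {(2, i, j)} := by
    ext ⟨c, a, b⟩
    rw [Finset.mem_filter, List.mem_toFinset, mem_Jl, Finset.mem_union, Finset.mem_union]
    unfold Ve
    by_cases h1 : 0 < j <;> by_cases h2 : 0 < i <;> by_cases h3 : c = 0 <;> by_cases h4 : c = 1 <;>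
      simp [h1, h2, h3, h4] <;> omega
  rw [e, Finset.sum_union, Finset.sum_union]
  · split_ifs <;> simp
  · split_ifs <;> simp
  · split_ifs <;> simp

theorem total_U (f : ℕ × ℕ × ℕ → ℤ) : ∑ x ∈ (Rl k).toFinset,
    ∑ p ∈ (Jl k).toFinset with Ue p = x, f p = ∑ p ∈ (Jl k).toFinset, f p :=
  Finset.sum_fiberwise_of_maps_to (fun p hp => (wf (n := 0) (S := fun _ _ _ _ => true)).U_mem p hp) f

theorem total_V (f : ℕ × ℕ × ℕ → ℤ) : ∑ x ∈ (Rl k).toFinset,
    ∑ p ∈ (Jl k).toFinset with Ve p = x, f p = ∑ p ∈ (Jl k).toFinset, f p :=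
  Finset.sum_fiberwise_of_maps_to (fun p hp => (wf (n := 0) (S := fun _ _ _ _ => true)).V_mem p hp) f

theorem ps_cast {v m : ℕ} (hm : m ≤ TT n) :
    (ps n k v m : ℤ) - bs n k = QQ k * ((v : ℤ) - m) := by
  unfold ps bs
  rw [Nat.cast_add, Nat.cast_mul, Nat.cast_sub (by omega)]
  push_cast
  ring

/-- A tiling gives a solution. -/
theorem sol_of_tiling {x y : ℕ → ℕ} (hx : ∀ i < k, x i < n) (hy : ∀ i < k, y i < n)
    (hS : ∀ i < k, ∀ j < k, S i j (x i) (y j) = true) :
    ∃ s : ℕ × ℕ × ℕ → ℕ, (∀ p ∈ (dat n k S).S, (dat n k S).Cut p (s p)) ∧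
      ∀ z ∈ (dat n k S).R, (dat n k S).load s z ≤ HH n k := by
  obtain ⟨v, hv⟩ : ∃ v : ℕ × ℕ × ℕ → ℕ, v = fun p => if p.1 = 0 then x p.2.1 * co n p.2.2 else
    if p.1 = 1 then y p.2.2 * (n + 1) ^ 2 * co n p.2.1 else
      vp n k p.2.1 p.2.2 (x p.2.1) (y p.2.2) := ⟨_, rfl⟩
  obtain ⟨m, hm⟩ : ∃ m : ℕ × ℕ × ℕ → ℕ, m = fun p => if p.1 = 0 then 0 else
    if p.1 = 1 then 0 else vm n p.2.1 p.2.2 (x p.2.1) (y p.2.2) := ⟨_, rfl⟩
  have hmT : ∀ p ∈ (Jl k).toFinset, m p ≤ TT n := by
    intro p hp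
    rw [List.mem_toFinset, mem_Jl] at hp
    rw [hm]
    simp only
    split_ifs
    · omega
    · omega
    · exact vm_le (hx _ hp.2.1) (hy _ hp.2.2.1)
  have hvT : ∀ p ∈ (Jl k).toFinset, v p ≤ TT n := by
    intro p hp
    rw [List.mem_toFinset, mem_Jl] at hp
    rw [hv]
    simp only
    split_ifs
    · exact (mul_co_le (hx _ hp.2.1) _).trans (by unfold TT; omega)
    · exact (mul_co_le' (hy _ hp.2.2.1) _).trans (by unfold TT; omega)
    · exact vp_le (hx _ hp.2.1) (hy _ hp.2.2.1)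
  refine ⟨fun p => ps n k (v p) (m p), fun p hp => ?_, ?_⟩
  · change p ∈ (Jl k).toFinset at hp
    rw [List.mem_toFinset, mem_Jl] at hp
    right; right
    change ps n k (v p) (m p) ∈ posL n k S p
    unfold posL
    rw [hv, hm]
    simp only
    split_ifs with h1 h2
    · exact List.mem_map_of_mem (f := fun a => ps n k (a * co n p.2.2) 0)
        (List.mem_range.mpr (hx _ hp.2.1))
    · exact List.mem_map_of_mem (f := fun b => ps n k (b * (n + 1) ^ 2 * co n p.2.1) 0)
        (List.mem_range.mpr (hy _ hp.2.2.1))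
    · rw [List.mem_flatMap]
      refine ⟨x p.2.1, List.mem_range.mpr (hx _ hp.2.1), ?_⟩
      rw [List.mem_map]
      exact ⟨y p.2.2, List.mem_filter.mpr ⟨List.mem_range.mpr (hy _ hp.2.2.1),
        hS _ hp.2.1 _ hp.2.2.1⟩, rfl⟩
  · have hle : ∀ p ∈ (Jl k).toFinset, ps n k (v p) (m p) ≤ WW n k :=
      fun p hp => (ps_lt (hvT p hp)).2.le
    obtain ⟨e, he⟩ : ∃ e : ℕ × ℕ × ℕ → ℤ, e = fun p => (ps n k (v p) (m p) : ℤ) - bs n k :=
      ⟨_, rfl⟩
    have he' : ∀ p ∈ (Jl k).toFinset, e p = QQ k * ((v p : ℤ) - m p) := by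
      intro p hp
      rw [he]
      exact ps_cast (hmT p hp)
    have hcell : ∀ i < k, ∀ j < k, ∑ p ∈ (Jl k).toFinset with Ue p = some (i, j), e p =
        ∑ p ∈ (Jl k).toFinset with Ve p = some (i, j), e p := by
      intro i hi j hj
      have hJ0 : j + 1 < k → (0, i, j) ∈ (Jl k).toFinset := fun h => by
        rw [List.mem_toFinset, mem_Jl]
        simp only
        omega
      have hJ1 : i + 1 < k → (1, i, j) ∈ (Jl k).toFinset := fun h => by
        rw [List.mem_toFinset, mem_Jl]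
        simp only
        omega
      have hJ2 : (2, i, j) ∈ (Jl k).toFinset := by
        rw [List.mem_toFinset, mem_Jl]
        simp only
        omega
      have hJ3 : 0 < j → (0, i, j - 1) ∈ (Jl k).toFinset := fun h => by
        rw [List.mem_toFinset, mem_Jl]
        simp only
        omega
      have hJ4 : 0 < i → (1, i - 1, j) ∈ (Jl k).toFinset := fun h => by
        rw [List.mem_toFinset, mem_Jl]
        simp only
        omega
      rw [sum_U hi hj, sum_V hi hj, he' _ hJ2]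
      have e0 : (if j + 1 < k then e (0, i, j) else 0) =
          QQ k * (if j + 1 < k then ((x i * co n j : ℕ) : ℤ) else 0) := by
        split_ifs with h
        · rw [he' _ (hJ0 h), hv, hm]
          simp
        · simp
      have e1 : (if i + 1 < k then e (1, i, j) else 0) =
          QQ k * (if i + 1 < k then ((y j * (n + 1) ^ 2 * co n i : ℕ) : ℤ) else 0) := by
        split_ifs with h
        · rw [he' _ (hJ1 h), hv, hm]
          simp
        · simp
      have e3 : (if 0 < j then e (0, i, j - 1) else 0) =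
          QQ k * (if 0 < j then ((x i * co n (j - 1) : ℕ) : ℤ) else 0) := by
        split_ifs with h
        · rw [he' _ (hJ3 h), hv, hm]
          simp
        · simp
      have e4 : (if 0 < i then e (1, i - 1, j) else 0) =
          QQ k * (if 0 < i then ((y j * (n + 1) ^ 2 * co n (i - 1) : ℕ) : ℤ) else 0) := by
        split_ifs with h
        · rw [he' _ (hJ4 h), hv, hm]
          simp
        · simp
      have e2 : (v (2, i, j) : ℤ) = (if j + 1 < k then ((x i * co n j : ℕ) : ℤ) else 0) +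
          if i + 1 < k then ((y j * (n + 1) ^ 2 * co n i : ℕ) : ℤ) else 0 := by
        rw [hv]
        simp only [vp]
        norm_num
      have e5 : (m (2, i, j) : ℤ) = (if 0 < j then ((x i * co n (j - 1) : ℕ) : ℤ) else 0) +
          if 0 < i then ((y j * (n + 1) ^ 2 * co n (i - 1) : ℕ) : ℤ) else 0 := by
        rw [hm]
        simp only [vm]
        norm_num
      rw [e0, e1, e3, e4, e2, e5]
      ring
    have hnone : ∑ p ∈ (Jl k).toFinset with Ue p = none, e p =
        ∑ p ∈ (Jl k).toFinset with Ve p = none, e p := by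
      have h1 := total_U (k := k) e
      have h2 := total_V (k := k) e
      have hnn : none ∈ (Rl k).toFinset := by
        rw [List.mem_toFinset, mem_Rl]
        exact Or.inl rfl
      rw [← Finset.add_sum_erase _ _ hnn] at h1 h2
      have h3 : ∑ x ∈ (Rl k).toFinset.erase none, ∑ p ∈ (Jl k).toFinset with Ue p = x, e p =
          ∑ x ∈ (Rl k).toFinset.erase none, ∑ p ∈ (Jl k).toFinset with Ve p = x, e p := by
        refine Finset.sum_congr rfl fun z hz => ?_
        rw [Finset.mem_erase, List.mem_toFinset, mem_Rl] at hz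
        rcases hz.2 with h4 | ⟨i, hi, j, hj, rfl⟩
        · exact absurd h4 hz.1
        · exact hcell i hi j hj
      linarith
    intro z hz
    change z ∈ (Rl k).toFinset at hz
    rw [load_iff hle]
    rw [List.mem_toFinset, mem_Rl] at hz
    rw [he] at hnone hcell
    rcases hz with rfl | ⟨i, hi, j, hj, rfl⟩
    · exact hnone.le
    · exact (hcell i hi j hj).le

/-! ### Digits -/

theorem co_cases (n j : ℕ) (hj : 0 < j) :
    (co n j = 1 ∧ co n (j - 1) = n + 1) ∨ (co n j = n + 1 ∧ co n (j - 1) = 1) := by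
  unfold co
  split_ifs <;> simp <;> omega

theorem co_pos (n j : ℕ) : 1 ≤ co n j := by
  unfold co
  split_ifs <;> omega

theorem dig0 {n : ℕ} {A B : ℤ} (hA : |A| ≤ n) (h : A + B * (n + 1) = 0) : A = 0 ∧ B = 0 := by
  have h1 : A = -B * (n + 1) := by linarith
  have hB : B = 0 := by
    by_contra hB
    have h2 : 1 ≤ |B| := Int.one_le_abs hB
    rw [h1, abs_mul, abs_neg, abs_of_nonneg (by positivity : (0 : ℤ) ≤ (n : ℤ) + 1)] at hA
    nlinarith
  subst hB
  simp at h
  exact ⟨h, rfl⟩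

theorem dig1 {n j : ℕ} {A B : ℤ} (hA : |A| ≤ n) (hB : |B| ≤ n) (hj : 0 < j ∨ B = 0)
    (h : A * co n j + B * co n (j - 1) = 0) : A = 0 ∧ B = 0 := by
  by_cases hB0 : B = 0
  · subst hB0
    rw [zero_mul, add_zero, mul_eq_zero] at h
    refine ⟨h.resolve_right ?_, rfl⟩
    have := co_pos n j
    exact_mod_cast (by omega : co n j ≠ 0)
  · have hj' := hj.resolve_right hB0
    rcases co_cases n j hj' with ⟨h1, h2⟩ | ⟨h1, h2⟩
    · rw [h1, h2] at h
      push_cast at h
      exact dig0 hA (by linarith)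
    · rw [h1, h2] at h
      push_cast at h
      exact (dig0 hB (by linarith)).symm

theorem dig1_lt {n j : ℕ} {A B : ℤ} (hA : |A| ≤ n) (hB : |B| ≤ n) (hj : 0 < j ∨ B = 0) :
    |A * co n j + B * co n (j - 1)| < (n + 1) ^ 2 := by
  have hn : (0 : ℤ) ≤ n := by positivity
  by_cases hB0 : B = 0
  · subst hB0
    rw [zero_mul, add_zero, abs_mul]
    have h1 : |(co n j : ℤ)| ≤ n + 1 := by
      rw [abs_of_nonneg (by positivity)]
      exact_mod_cast co_le (n := n) j
    have h2 := abs_nonneg A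
    have h3 := abs_nonneg (co n j : ℤ)
    nlinarith
  · have hj' := hj.resolve_right hB0
    have h4 := abs_add_le (A * co n j) (B * co n (j - 1))
    rw [abs_mul, abs_mul] at h4
    rcases co_cases n j hj' with ⟨h1, h2⟩ | ⟨h1, h2⟩
    · rw [h1, h2] at h4 ⊢
      push_cast at h4 ⊢
      rw [abs_one, abs_of_nonneg (by positivity : (0 : ℤ) ≤ (n : ℤ) + 1)] at h4
      nlinarith
    · rw [h1, h2] at h4 ⊢
      push_cast at h4 ⊢
      rw [abs_one, abs_of_nonneg (by positivity : (0 : ℤ) ≤ (n : ℤ) + 1)] at h4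
      nlinarith

theorem dig2 {M X Y : ℤ} (hX : |X| < M) (h : X + M * Y = 0) : X = 0 ∧ Y = 0 := by
  have h0 : X = 0 := Int.eq_zero_of_abs_lt_dvd ⟨-Y, by linarith⟩ hX
  subst h0
  rw [abs_zero] at hX
  rw [zero_add, mul_eq_zero] at h
  exact ⟨rfl, h.resolve_left hX.ne'⟩

theorem digits {n i j : ℕ} {A B C D : ℤ} (hA : |A| ≤ n) (hB : |B| ≤ n) (hj : 0 < j ∨ B = 0)
    (hC : |C| ≤ n) (hD : |D| ≤ n) (hi : 0 < i ∨ D = 0)
    (h : (A * co n j + B * co n (j - 1)) + (n + 1) ^ 2 * (C * co n i + D * co n (i - 1)) = 0) :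
    A = 0 ∧ B = 0 ∧ C = 0 ∧ D = 0 := by
  obtain ⟨h1, h2⟩ := dig2 (dig1_lt hA hB hj) h
  obtain ⟨h3, h4⟩ := dig1 hA hB hj h1
  obtain ⟨h5, h6⟩ := dig1 hC hD hi h2
  exact ⟨h3, h4, h5, h6⟩

/-! ### Solutions give tilings -/

/-- A rank function. -/
def rk : Option (ℕ × ℕ) → ℕ
  | none => 0
  | some p => p.1 + p.2 + 1

theorem rk_lt {p : ℕ × ℕ × ℕ} (hp : p.1 < 3) : rk (Ue p) < rk (Ve p) := by
  unfold Ue Ve
  split_ifs <;> simp only [rk] <;> omega

/-- All positions of a solution are allowed. -/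
theorem all_allowed {s : ℕ × ℕ × ℕ → ℕ} (hs : ∀ p ∈ (dat n k S).S, (dat n k S).Cut p (s p))
    (hl : ∀ z ∈ (dat n k S).R, (dat n k S).load s z ≤ HH n k) :
    (∀ p ∈ (Jl k).toFinset, s p ∈ posL n k S p) ∧
      ∀ z ∈ (Rl k).toFinset, ∑ p ∈ (Jl k).toFinset with Ue p = z, ((s p : ℤ) - bs n k) =
        ∑ p ∈ (Jl k).toFinset with Ve p = z, ((s p : ℤ) - bs n k) := by
  classical
  have hsW : ∀ p ∈ (Jl k).toFinset, s p ≤ WW n k := by
    intro p hp
    rcases hs p hp with h1 | h1 | h1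
    · omega
    · exact h1.le
    · exact ((wf (n := n) (k := k) (S := S)).A_pos p hp _ h1).2.le
  have hbal : ∀ z ∈ (Rl k).toFinset, ∑ p ∈ (Jl k).toFinset with Ue p = z, ((s p : ℤ) - bs n k) =
        ∑ p ∈ (Jl k).toFinset with Ve p = z, ((s p : ℤ) - bs n k) := by
    refine (Finset.sum_eq_sum_iff_of_le (s := (Rl k).toFinset)
      fun z hz => (load_iff hsW z).mp (hl z hz)).mp ?_
    rw [total_U (k := k) fun p => ((s p : ℤ) - bs n k),
      total_V (k := k) fun p => ((s p : ℤ) - bs n k)]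
  refine ⟨?_, hbal⟩
  obtain ⟨δ, hδ⟩ : ∃ δ : ℕ × ℕ × ℕ → ℤ, δ = fun p => if s p ∈ posL n k S p then 0 else 1 :=
    ⟨_, rfl⟩
  have hw : ∀ p ∈ (Jl k).toFinset, ∃ w : ℤ, (s p : ℤ) - bs n k = QQ k * w - δ p := by
    intro p hp
    have hp3 : p.1 < 3 := by
      rw [List.mem_toFinset, mem_Jl] at hp
      exact hp.1
    by_cases h : s p ∈ posL n k S p
    · rw [hδ]
      simp only [if_pos h, sub_zero]
      rcases posL_spec hp3 h with ⟨-, a, ha, h1⟩ | ⟨-, a, ha, h1⟩ | ⟨-, a, ha, b, hb, -, h1⟩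
      · rw [h1, ps_cast (Nat.zero_le _)]
        exact ⟨_, rfl⟩
      · rw [h1, ps_cast (Nat.zero_le _)]
        exact ⟨_, rfl⟩
      · rw [h1, ps_cast (vm_le ha hb)]
        exact ⟨_, rfl⟩
    · rw [hδ]
      simp only [if_neg h]
      rcases hs p hp with h1 | h1 | h1
      · refine ⟨-TT n, ?_⟩
        rw [h1]
        unfold bs
        push_cast
        ring
      · refine ⟨TT n + 2, ?_⟩
        rw [h1]
        change ((WW n k : ℕ) : ℤ) - _ = _
        unfold bs WW
        push_cast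
        ring
      · exact absurd h1 h
  choose! w hw using hw
  have hδ0 : ∀ p, 0 ≤ δ p := fun p => by rw [hδ]; simp only; split_ifs <;> norm_num
  have hδ1 : ∀ p, δ p ≤ 1 := fun p => by rw [hδ]; simp only; split_ifs <;> norm_num
  have hδbound : ∀ F : Finset (ℕ × ℕ × ℕ), F ⊆ (Jl k).toFinset → 0 ≤ ∑ p ∈ F, δ p ∧
      ∑ p ∈ F, δ p ≤ KK k := by
    intro F hF
    refine ⟨Finset.sum_nonneg fun p _ => hδ0 p, ?_⟩
    refine (Finset.sum_le_card_nsmul F δ 1 fun p _ => hδ1 p).trans ?_
    rw [nsmul_eq_mul, mul_one]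
    have := Finset.card_le_card hF
    rw [card_S] at this
    exact_mod_cast this
  have hres : ∀ z ∈ (Rl k).toFinset, ∑ p ∈ (Jl k).toFinset with Ue p = z, δ p =
      ∑ p ∈ (Jl k).toFinset with Ve p = z, δ p := by
    intro z hz
    have h1 := hbal z hz
    rw [Finset.sum_congr rfl fun p hp => hw p (Finset.mem_of_mem_filter p hp),
      Finset.sum_congr (s₁ := (Jl k).toFinset.filter fun p => Ve p = z) rfl
        fun p hp => hw p (Finset.mem_of_mem_filter p hp),
      Finset.sum_sub_distrib, Finset.sum_sub_distrib, ← Finset.mul_sum, ← Finset.mul_sum] at h1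
    have h2 := hδbound _ (Finset.filter_subset (fun p => Ue p = z) (Jl k).toFinset)
    have h3 := hδbound _ (Finset.filter_subset (fun p => Ve p = z) (Jl k).toFinset)
    have h4 : ∑ p ∈ (Jl k).toFinset with Ue p = z, δ p -
        ∑ p ∈ (Jl k).toFinset with Ve p = z, δ p = 0 := by
      refine Int.eq_zero_of_abs_lt_dvd (m := QQ k) ⟨∑ p ∈ (Jl k).toFinset with Ue p = z, w p -
        ∑ p ∈ (Jl k).toFinset with Ve p = z, w p, by linarith⟩ ?_
      rw [abs_lt]
      have : (QQ k : ℤ) = KK k + 1 := by unfold QQ; push_cast; ring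
      constructor <;> linarith
    linarith
  -- no bad position
  by_contra hcon
  push Not at hcon
  have hne : ((Jl k).toFinset.filter fun p => s p ∉ posL n k S p).Nonempty := by
    obtain ⟨p, hp, hp'⟩ := hcon
    exact ⟨p, Finset.mem_filter.mpr ⟨hp, hp'⟩⟩
  obtain ⟨p, hp, hmin⟩ := Finset.exists_min_image _ (fun p => rk (Ue p)) hne
  rw [Finset.mem_filter] at hp
  have hz : Ue p ∈ (Rl k).toFinset := (wf (n := n) (k := k) (S := S)).U_mem p hp.1
  have h1 : 0 < ∑ q ∈ (Jl k).toFinset with Ue q = Ue p, δ q := by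
    refine Finset.sum_pos' (fun q _ => hδ0 q) ⟨p, Finset.mem_filter.mpr ⟨hp.1, rfl⟩, ?_⟩
    rw [hδ]
    simp only [if_neg hp.2]
    norm_num
  rw [hres _ hz] at h1
  obtain ⟨q, hq, hq'⟩ := Finset.exists_ne_zero_of_sum_ne_zero h1.ne'
  rw [Finset.mem_filter] at hq
  have hqb : s q ∉ posL n k S q := by
    intro h2
    apply hq'
    rw [hδ]
    simp only [if_pos h2]
  have h2 := hmin q (Finset.mem_filter.mpr ⟨hq.1, hqb⟩)
  have hq3 := hq.1
  rw [List.mem_toFinset, mem_Jl] at hq3
  have h3 := rk_lt hq3.1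
  rw [hq.2] at h3
  omega

theorem abs_sub_le_nat {a b n : ℕ} (ha : a < n) (hb : b < n) : |(a : ℤ) - b| ≤ n := by
  rw [abs_le]
  constructor <;> omega

/-- A solution gives a tiling. -/
theorem tiling_of_sol {s : ℕ × ℕ × ℕ → ℕ} (hs : ∀ p ∈ (dat n k S).S, (dat n k S).Cut p (s p))
    (hl : ∀ z ∈ (dat n k S).R, (dat n k S).load s z ≤ HH n k) :
    ∃ x y : ℕ → ℕ, (∀ i < k, x i < n) ∧ (∀ i < k, y i < n) ∧
      ∀ i < k, ∀ j < k, S i j (x i) (y j) = true := by
  obtain ⟨hA, hbal⟩ := all_allowed hs hl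
  have hJ0 : ∀ i < k, ∀ j, j + 1 < k → (0, i, j) ∈ (Jl k).toFinset := fun i hi j h => by
    rw [List.mem_toFinset, mem_Jl]
    simp only
    omega
  have hJ1 : ∀ i, i + 1 < k → ∀ j < k, (1, i, j) ∈ (Jl k).toFinset := fun i hi j h => by
    rw [List.mem_toFinset, mem_Jl]
    simp only
    omega
  have hJ2 : ∀ i < k, ∀ j < k, (2, i, j) ∈ (Jl k).toFinset := fun i hi j hj => by
    rw [List.mem_toFinset, mem_Jl]
    simp only
    omega
  have h0 : ∀ i j, ∃ a, i < k → j + 1 < k → a < n ∧ s (0, i, j) = ps n k (a * co n j) 0 := by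
    intro i j
    by_cases h : i < k ∧ j + 1 < k
    · rcases posL_spec (by norm_num) (hA _ (hJ0 i h.1 j h.2)) with ⟨-, a, ha, h1⟩ | h1 | h1
      · exact ⟨a, fun _ _ => ⟨ha, h1⟩⟩
      · exact absurd h1.1 (by norm_num)
      · exact absurd h1.1 (by norm_num)
    · exact ⟨0, fun h1 h2 => absurd ⟨h1, h2⟩ h⟩
  have h1 : ∀ i j, ∃ b, i + 1 < k → j < k → b < n ∧
      s (1, i, j) = ps n k (b * (n + 1) ^ 2 * co n i) 0 := by
    intro i j
    by_cases h : i + 1 < k ∧ j < k
    · rcases posL_spec (by norm_num) (hA _ (hJ1 i h.1 j h.2)) with h1 | ⟨-, a, ha, h1⟩ | h1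
      · exact absurd h1.1 (by norm_num)
      · exact ⟨a, fun _ _ => ⟨ha, h1⟩⟩
      · exact absurd h1.1 (by norm_num)
    · exact ⟨0, fun h1 h2 => absurd ⟨h1, h2⟩ h⟩
  have h2 : ∀ i j, ∃ a b, i < k → j < k → a < n ∧ b < n ∧ S i j a b = true ∧
      s (2, i, j) = ps n k (vp n k i j a b) (vm n i j a b) := by
    intro i j
    by_cases h : i < k ∧ j < k
    · rcases posL_spec (by norm_num) (hA _ (hJ2 i h.1 j h.2)) with h1 | h1 |
        ⟨-, a, ha, b, hb, hab, h1⟩
      · exact absurd h1.1 (by norm_num)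
      · exact absurd h1.1 (by norm_num)
      · exact ⟨a, b, fun _ _ => ⟨ha, hb, hab, h1⟩⟩
    · exact ⟨0, 0, fun h1 h2 => absurd ⟨h1, h2⟩ h⟩
  choose p hp using h0
  choose q hq using h1
  choose X Y hXY using h2
  -- the equation of a cell
  have hcell : ∀ i < k, ∀ j < k, (j + 1 < k → p i j = X i j) ∧ (0 < j → p i (j - 1) = X i j) ∧
      (i + 1 < k → q i j = Y i j) ∧ (0 < i → q (i - 1) j = Y i j) := by
    intro i hi j hj
    obtain ⟨hXn, hYn, -, hXYe⟩ := hXY i j hi hj
    have h3 := hbal (some (i, j)) (by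
      rw [List.mem_toFinset, mem_Rl]
      exact Or.inr ⟨i, hi, j, hj, rfl⟩)
    rw [sum_U hi hj, sum_V hi hj] at h3
    have e0 : (if j + 1 < k then ((s (0, i, j) : ℕ) : ℤ) - bs n k else 0) =
        QQ k * (if j + 1 < k then (p i j : ℤ) * co n j else 0) := by
      split_ifs with h
      · rw [(hp i j hi h).2, ps_cast (Nat.zero_le _)]
        push_cast
        ring
      · simp
    have e1 : (if i + 1 < k then ((s (1, i, j) : ℕ) : ℤ) - bs n k else 0) =
        QQ k * (if i + 1 < k then (q i j : ℤ) * (n + 1) ^ 2 * co n i else 0) := by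
      split_ifs with h
      · rw [(hq i j h hj).2, ps_cast (Nat.zero_le _)]
        push_cast
        ring
      · simp
    have e3 : (if 0 < j then ((s (0, i, j - 1) : ℕ) : ℤ) - bs n k else 0) =
        QQ k * (if 0 < j then (p i (j - 1) : ℤ) * co n (j - 1) else 0) := by
      split_ifs with h
      · rw [(hp i (j - 1) hi (by omega)).2, ps_cast (Nat.zero_le _)]
        push_cast
        ring
      · simp
    have e4 : (if 0 < i then ((s (1, i - 1, j) : ℕ) : ℤ) - bs n k else 0) =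
        QQ k * (if 0 < i then (q (i - 1) j : ℤ) * (n + 1) ^ 2 * co n (i - 1) else 0) := by
      split_ifs with h
      · rw [(hq (i - 1) j (by omega) hj).2, ps_cast (Nat.zero_le _)]
        push_cast
        ring
      · simp
    have e2 : ((s (2, i, j) : ℕ) : ℤ) - bs n k = QQ k *
        (((if j + 1 < k then (X i j : ℤ) * co n j else 0) +
          (if i + 1 < k then (Y i j : ℤ) * (n + 1) ^ 2 * co n i else 0)) -
        ((if 0 < j then (X i j : ℤ) * co n (j - 1) else 0) +
          (if 0 < i then (Y i j : ℤ) * (n + 1) ^ 2 * co n (i - 1) else 0))) := by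
      rw [hXYe, ps_cast (vm_le hXn hYn)]
      unfold vp vm
      push_cast
      rfl
    rw [e0, e1, e3, e4, e2, ← mul_add, ← mul_add, ← mul_add] at h3
    have hQ : (QQ k : ℤ) ≠ 0 := by
      have : QQ k ≠ 0 := by unfold QQ; omega
      exact_mod_cast this
    have h4 := mul_left_cancel₀ hQ h3
    have key := digits (n := n) (i := i) (j := j)
      (A := if j + 1 < k then (p i j : ℤ) - X i j else 0)
      (B := if 0 < j then (X i j : ℤ) - p i (j - 1) else 0)
      (C := if i + 1 < k then (q i j : ℤ) - Y i j else 0)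
      (D := if 0 < i then (Y i j : ℤ) - q (i - 1) j else 0)
      (by
        split_ifs with h
        · exact abs_sub_le_nat (hp i j hi h).1 hXn
        · simp) (by
        split_ifs with h
        · exact abs_sub_le_nat hXn (hp i (j - 1) hi (by omega)).1
        · simp) (by
        by_cases h : 0 < j
        · exact Or.inl h
        · exact Or.inr (if_neg h)) (by
        split_ifs with h
        · exact abs_sub_le_nat (hq i j h hj).1 hYn
        · simp) (by
        split_ifs with h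
        · exact abs_sub_le_nat hYn (hq (i - 1) j (by omega) hj).1
        · simp) (by
        by_cases h : 0 < i
        · exact Or.inl h
        · exact Or.inr (if_neg h)) (by
        split_ifs at h4 ⊢ <;> linarith)
    obtain ⟨k1, k2, k3, k4⟩ := key
    refine ⟨fun h => ?_, fun h => ?_, fun h => ?_, fun h => ?_⟩
    · rw [if_pos h] at k1
      omega
    · rw [if_pos h] at k2
      omega
    · rw [if_pos h] at k3
      omega
    · rw [if_pos h] at k4
      omega
  have hX : ∀ i < k, ∀ j < k, X i j = X i 0 := by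
    intro i hi j
    induction j with
    | zero => intro _; rfl
    | succ j ih =>
      intro hj
      rw [← ih (by omega), ← (hcell i hi j (by omega)).1 hj, ← (hcell i hi (j + 1) hj).2.1 (by omega)]
      rfl
  have hY : ∀ j < k, ∀ i < k, Y i j = Y 0 j := by
    intro j hj i
    induction i with
    | zero => intro _; rfl
    | succ i ih =>
      intro hi
      rw [← ih (by omega), ← (hcell i (by omega) j hj).2.2.1 hi,
        ← (hcell (i + 1) hi j hj).2.2.2 (by omega)]
      rfl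
  refine ⟨fun i => X i 0, fun j => Y 0 j, fun i hi => ?_, fun j hj => ?_, fun i hi j hj => ?_⟩
  · exact (hXY i 0 hi (by omega)).1
  · exact (hXY 0 j (by omega) hj).2.1
  · have := (hXY i j hi hj).2.2.1
    rwa [hX i hi j hj, hY j hj i hi] at this

end Q224.ED
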