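import Mathlib

/-!
# Hubs joined by threads
-/

set_option autoImplicit false
set_option linter.unusedSectionVars false

namespace Q224.ED

open Finset

variable {X J : Type} [DecidableEq X] [DecidableEq J]

/-- The data: the threads `S`, the hubs `R`, the ends `U`, `V` of the threads, the length `W`, the
allowed positions `A`, the weights `c` of the hubs. -/
structure Dat (X J : Type) where
  /-- threads -/
  S : Finset J
  /-- hubs -/
  R : Finset X
  /-- first end -/
  U : J → X
  /-- second end -/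
  V : J → X
  /-- length -/
  W : ℕ
  /-- allowed positions -/
  A : J → ℕ → Prop
  /-- weights -/
  c : X → ℕ

/-- The codes of the vertices. -/
abbrev Cd (X J : Type) := (X × ℕ) ⊕ (J × ℕ)

variable (D : Dat X J)

/-- The codes in use. -/
def Dat.Mem : Cd X J → Prop
  | Sum.inl p => p.1 ∈ D.R ∧ p.2 < D.c p.1
  | Sum.inr p => p.1 ∈ D.S ∧ p.2 < D.W

/-- The position `q` precedes the position `t`. -/
def Dat.Pred (j : J) (t q : ℕ) : Prop :=
  q < t ∧ (q = 0 ∨ D.A j q) ∧ ∀ s, D.A j s → s < t → s ≤ q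

/-- The relation (child, parent). -/
def Dat.Rel : Cd X J → Cd X J → Prop
  | Sum.inl p, Sum.inl q => p.1 = q.1 ∧ p.2 ≠ 0 ∧ q.2 = 0
  | Sum.inl p, Sum.inr q => p.1 = D.V q.1 ∧ p.2 = 0 ∧ D.Pred q.1 D.W q.2
  | Sum.inr p, Sum.inl q => q.1 = D.U p.1 ∧ p.2 = 0 ∧ q.2 = 0
  | Sum.inr p, Sum.inr q => p.1 = q.1 ∧ D.Pred p.1 p.2 q.2

/-- The point of a thread at a position (the position `W` is the second end). -/
def Dat.pt (j : J) (t : ℕ) : Cd X J := if t < D.W then Sum.inr (j, t) else Sum.inl (D.V j, 0)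

open Classical in
/-- The predecessor of a position. -/
noncomputable def Dat.pred (j : J) (t : ℕ) : ℕ := Nat.findGreatest (D.A j) (t - 1)

/-- The parent of the point at a position. -/
noncomputable def Dat.par (j : J) (t : ℕ) : Cd X J :=
  if t = 0 then Sum.inl (D.U j, 0) else Sum.inr (j, D.pred j t)

theorem Dat.pred_spec (j : J) {t : ℕ} (ht : t ≠ 0) : D.Pred j t (D.pred j t) := by
  classical
  refine ⟨?_, ?_, ?_⟩
  · have := Nat.findGreatest_le (P := D.A j) (t - 1)
    unfold Dat.pred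
    omega
  · by_cases h : D.pred j t = 0
    · exact Or.inl h
    · right
      unfold Dat.pred at h ⊢
      exact Nat.findGreatest_of_ne_zero rfl h
  · intro s hs hst
    unfold Dat.pred
    exact Nat.le_findGreatest (by omega) hs

theorem Dat.Pred.eq {D : Dat X J} {j : J} {t q q' : ℕ} (h : D.Pred j t q) (h' : D.Pred j t q') :
    q = q' := by
  obtain ⟨h1, h2, h3⟩ := h
  obtain ⟨h1', h2', h3'⟩ := h'
  apply le_antisymm
  · rcases h2 with h2 | h2
    · omega
    · exact h3' q h2 h1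
  · rcases h2' with h2' | h2'
    · omega
    · exact h3 q' h2' h1'

theorem Dat.pred_iff {j : J} {t q : ℕ} (ht : t ≠ 0) : D.Pred j t q ↔ q = D.pred j t :=
  ⟨fun h => h.eq (D.pred_spec j ht), fun h => h ▸ D.pred_spec j ht⟩

/-- Well-formed data. -/
structure Dat.WF (D : Dat X J) : Prop where
  U_mem : ∀ j ∈ D.S, D.U j ∈ D.R
  V_mem : ∀ j ∈ D.S, D.V j ∈ D.R
  ne : ∀ j ∈ D.S, D.U j ≠ D.V j
  pos : 0 < D.W
  A_pos : ∀ j ∈ D.S, ∀ s, D.A j s → 0 < s ∧ s < D.W
  c_pos : ∀ x ∈ D.R, 0 < D.c x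

/-- The positions at which a thread can be cut. -/
def Dat.Cut (j : J) (s : ℕ) : Prop := s = 0 ∨ s = D.W ∨ D.A j s

/-- The layout of the graph. -/
structure Lay {T : Type*} (G : SimpleGraph T) (φ : T → Cd X J) (D : Dat X J) : Prop where
  inj : Function.Injective φ
  adj : ∀ u v, G.Adj u v ↔ u ≠ v ∧ (D.Rel (φ u) (φ v) ∨ D.Rel (φ v) (φ u))
  mem : ∀ u, D.Mem (φ u)
  surj : ∀ d, D.Mem d → ∃ u, φ u = d

variable {D}

theorem Dat.pt_mem (hD : D.WF) {j : J} (hj : j ∈ D.S) (t : ℕ) : D.Mem (D.pt j t) := by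
  unfold Dat.pt
  split_ifs with h
  · exact ⟨hj, h⟩
  · exact ⟨hD.V_mem j hj, hD.c_pos _ (hD.V_mem j hj)⟩

theorem Dat.par_mem (hD : D.WF) {j : J} (hj : j ∈ D.S) {t : ℕ} (ht : t ≤ D.W) :
    D.Mem (D.par j t) := by
  unfold Dat.par
  split_ifs with h
  · exact ⟨hD.U_mem j hj, hD.c_pos _ (hD.U_mem j hj)⟩
  · exact ⟨hj, (D.pred_spec j h).1.trans_le ht⟩

theorem Dat.pt_lt {j : J} {t : ℕ} (h : t < D.W) : D.pt j t = Sum.inr (j, t) := if_pos h

theorem Dat.pt_W {j : J} : D.pt j D.W = Sum.inl (D.V j, 0) := if_neg (lt_irrefl _)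

theorem Dat.par_zero {j : J} : D.par j 0 = Sum.inl (D.U j, 0) := if_pos rfl

theorem Dat.par_pos {j : J} {t : ℕ} (h : t ≠ 0) : D.par j t = Sum.inr (j, D.pred j t) := if_neg h

theorem Dat.rel_pt (hD : D.WF) {j : J} {t : ℕ} (ht : t ≤ D.W) : D.Rel (D.pt j t) (D.par j t) := by
  rcases Nat.lt_or_ge t D.W with h | h
  · rw [Dat.pt_lt h]
    by_cases h0 : t = 0
    · subst h0
      rw [Dat.par_zero]
      exact ⟨rfl, rfl, rfl⟩
    · rw [Dat.par_pos h0]
      exact ⟨rfl, D.pred_spec j h0⟩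
  · obtain rfl : t = D.W := le_antisymm ht h
    have h0 : D.W ≠ 0 := hD.pos.ne'
    rw [Dat.pt_W, Dat.par_pos h0]
    exact ⟨rfl, rfl, D.pred_spec j h0⟩

/-- Every pair in the relation is a leaf and its hub, or a point and its parent. -/
theorem Dat.rel_cases (hD : D.WF) {d e : Cd X J} (hd : D.Mem d) (he : D.Mem e) (h : D.Rel d e) :
    (∃ x i, i ≠ 0 ∧ d = Sum.inl (x, i) ∧ e = Sum.inl (x, 0)) ∨
      ∃ j ∈ D.S, ∃ t ≤ D.W, d = D.pt j t ∧ e = D.par j t := by
  rcases d with ⟨x, i⟩ | ⟨j, t⟩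
  · rcases e with ⟨y, i'⟩ | ⟨j', t'⟩
    · obtain ⟨h1, h2, h3⟩ := h
      simp only at h1 h2 h3
      subst h1 h3
      exact Or.inl ⟨x, i, h2, rfl, rfl⟩
    · obtain ⟨h1, h2, h3⟩ := h
      simp only at h1 h2 h3
      subst h1 h2
      right
      refine ⟨j', he.1, D.W, le_rfl, Dat.pt_W.symm, ?_⟩
      rw [Dat.par_pos hD.pos.ne', ← (D.pred_iff hD.pos.ne').mp h3]
  · rcases e with ⟨y, i'⟩ | ⟨j', t'⟩
    · obtain ⟨h1, h2, h3⟩ := h
      simp only at h1 h2 h3
      subst h1 h2 h3
      exact Or.inr ⟨j, hd.1, 0, Nat.zero_le _, (Dat.pt_lt hD.pos).symm, Dat.par_zero.symm⟩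
    · obtain ⟨h1, h2⟩ := h
      simp only at h1 h2
      subst h1
      have h0 : t ≠ 0 := (Nat.zero_le _).trans_lt h2.1 |>.ne'
      refine Or.inr ⟨j, hd.1, t, hd.2.le, (Dat.pt_lt hd.2).symm, ?_⟩
      rw [Dat.par_pos h0, ← (D.pred_iff h0).mp h2]

theorem Dat.pt_ne_par (hD : D.WF) {j : J} (hj : j ∈ D.S) {t : ℕ} (ht : t ≤ D.W) :
    D.pt j t ≠ D.par j t := by
  rcases Nat.lt_or_ge t D.W with h | h
  · rw [Dat.pt_lt h]
    by_cases h0 : t = 0
    · subst h0
      rw [Dat.par_zero]
      exact Sum.inr_ne_inl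
    · rw [Dat.par_pos h0]
      intro he
      rw [Sum.inr.injEq, Prod.mk.injEq] at he
      have := (D.pred_spec j h0).1
      omega
  · obtain rfl : t = D.W := le_antisymm ht h
    rw [Dat.pt_W, Dat.par_pos hD.pos.ne']
    exact Sum.inl_ne_inr

/-- The edges of the threads are distinct. -/
theorem Dat.edge_inj (hD : D.WF) {j j' : J} (hj : j ∈ D.S) {t t' : ℕ}
    (ht : t ≤ D.W) (ht' : t' ≤ D.W)
    (h : (D.pt j t = D.pt j' t' ∧ D.par j t = D.par j' t') ∨
      (D.pt j t = D.par j' t' ∧ D.par j t = D.pt j' t')) : j = j' ∧ t = t' := by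
  have hW := hD.pos.ne'
  rcases h with ⟨h1, h2⟩ | ⟨h1, h2⟩
  · rcases Nat.lt_or_ge t D.W with h | h <;> rcases Nat.lt_or_ge t' D.W with h' | h'
    · rw [Dat.pt_lt h, Dat.pt_lt h', Sum.inr.injEq, Prod.mk.injEq] at h1
      exact h1
    · obtain rfl : t' = D.W := le_antisymm ht' h'
      rw [Dat.pt_lt h, Dat.pt_W] at h1
      exact absurd h1 Sum.inr_ne_inl
    · obtain rfl : t = D.W := le_antisymm ht h
      rw [Dat.pt_lt h', Dat.pt_W] at h1
      exact absurd h1 Sum.inl_ne_inr
    · obtain rfl : t = D.W := le_antisymm ht h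
      obtain rfl : t' = D.W := le_antisymm ht' h'
      rw [Dat.par_pos hW, Dat.par_pos hW, Sum.inr.injEq, Prod.mk.injEq] at h2
      exact ⟨h2.1, rfl⟩
  · exfalso
    rcases Nat.lt_or_ge t D.W with h | h <;> rcases Nat.lt_or_ge t' D.W with h' | h'
    · rw [Dat.pt_lt h] at h1
      rw [Dat.pt_lt h'] at h2
      by_cases h0 : t = 0
      · subst h0
        rw [Dat.par_zero] at h2
        exact Sum.inl_ne_inr h2
      · by_cases h0' : t' = 0
        · subst h0'
          rw [Dat.par_zero] at h1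
          exact Sum.inr_ne_inl h1
        · rw [Dat.par_pos h0', Sum.inr.injEq, Prod.mk.injEq] at h1
          rw [Dat.par_pos h0, Sum.inr.injEq, Prod.mk.injEq] at h2
          have h3 := (D.pred_spec j h0).1
          have h4 := (D.pred_spec j' h0').1
          omega
    · obtain rfl : t' = D.W := le_antisymm ht' h'
      rw [Dat.pt_lt h, Dat.par_pos hW, Sum.inr.injEq, Prod.mk.injEq] at h1
      rw [Dat.pt_W] at h2
      by_cases h0 : t = 0
      · subst h0
        rw [Dat.par_zero, Sum.inl.injEq, Prod.mk.injEq] at h2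
        rw [← h1.1] at h2
        exact hD.ne j hj h2.1
      · rw [Dat.par_pos h0] at h2
        exact Sum.inr_ne_inl h2
    · obtain rfl : t = D.W := le_antisymm ht h
      rw [Dat.pt_lt h', Dat.par_pos hW, Sum.inr.injEq, Prod.mk.injEq] at h2
      rw [Dat.pt_W] at h1
      by_cases h0 : t' = 0
      · subst h0
        rw [Dat.par_zero, Sum.inl.injEq, Prod.mk.injEq] at h1
        rw [← h2.1] at h1
        exact hD.ne j hj h1.1.symm
      · rw [Dat.par_pos h0] at h1
        exact Sum.inl_ne_inr h1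
    · obtain rfl : t = D.W := le_antisymm ht h
      obtain rfl : t' = D.W := le_antisymm ht' h'
      rw [Dat.pt_W, Dat.par_pos hW] at h1
      exact Sum.inl_ne_inr h1

section

variable {T : Type*} [Fintype T] [DecidableEq T] {G : SimpleGraph T} {φ : T → Cd X J}

/-- The weight of a hub with the parts of the threads attached to it. -/
def Dat.load (D : Dat X J) (s : J → ℕ) (x : X) : ℕ :=
  D.c x + (∑ j ∈ D.S with D.U j = x, s j) + ∑ j ∈ D.S with D.V j = x, (D.W - s j)

/-- A solution of the system gives a set of edges. -/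
theorem cut_of_sol (hL : Lay G φ D) (hD : D.WF) {h : ℕ} {s : J → ℕ}
    (hs : ∀ j ∈ D.S, D.Cut j (s j)) (hx : ∀ x ∈ D.R, D.load s x ≤ h) :
    ∃ E : Finset (Sym2 T), (E : Set (Sym2 T)) ⊆ G.edgeSet ∧ E.card ≤ D.S.card ∧
      ∀ v, {w | (G.deleteEdges E).Reachable v w}.ncard ≤ h := by
  classical
  have hsW : ∀ j ∈ D.S, s j ≤ D.W := by
    intro j hj
    rcases hs j hj with h1 | h1 | h1
    · omega
    · omega
    · exact (hD.A_pos j hj _ h1).2.le
  have hpt : ∀ j : D.S, ∃ u, φ u = D.pt j (s j) := fun j => hL.surj _ (Dat.pt_mem hD j.2 _)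
  have hpar : ∀ j : D.S, ∃ u, φ u = D.par j (s j) :=
    fun j => hL.surj _ (Dat.par_mem hD j.2 (hsW j j.2))
  choose a ha using hpt
  choose b hb using hpar
  refine ⟨Finset.univ.image fun j => s(a j, b j), ?_, ?_, ?_⟩
  · intro e he
    rw [Finset.mem_coe, Finset.mem_image] at he
    obtain ⟨j, -, rfl⟩ := he
    rw [SimpleGraph.mem_edgeSet, hL.adj]
    have h1 := Dat.pt_ne_par hD j.2 (hsW j j.2)
    refine ⟨fun h2 => h1 (by rw [← ha, ← hb, h2]), Or.inl ?_⟩
    rw [ha, hb]
    exact Dat.rel_pt hD (hsW j j.2)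
  · refine Finset.card_image_le.trans ?_
    rw [Finset.card_univ, Fintype.card_coe]
  · -- the labels
    obtain ⟨lab, hlab⟩ : ∃ lab : Cd X J → X, lab = Sum.elim (fun p => p.1)
      (fun p => if p.2 < s p.1 then D.U p.1 else D.V p.1) := ⟨_, rfl⟩
    have hrel : ∀ j ∈ D.S, ∀ t, t ≤ D.W → t ≠ s j → lab (D.pt j t) = lab (D.par j t) := by
      intro j hj t ht hts
      have hpt : lab (D.pt j t) = if t < s j then D.U j else D.V j := by
        rcases Nat.lt_or_ge t D.W with h1 | h1
        · rw [Dat.pt_lt h1, hlab]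
          rfl
        · obtain rfl : t = D.W := le_antisymm ht h1
          rw [Dat.pt_W, hlab, if_neg (by have := hsW j hj; omega)]
          rfl
      rw [hpt]
      by_cases h0 : t = 0
      · subst h0
        rw [Dat.par_zero, if_pos (by omega), hlab]
        rfl
      · rw [Dat.par_pos h0, hlab]
        change _ = if D.pred j t < s j then D.U j else D.V j
        have h3 := D.pred_spec j h0
        by_cases h4 : t < s j
        · rw [if_pos h4, if_pos (h3.1.trans h4)]
        · rw [if_neg h4, if_neg]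
          push Not
          have h5 : s j < t := by omega
          rcases hs j hj with h1 | h1 | h1
          · omega
          · omega
          · exact h3.2.2 _ h1 h5
    have hrel2 : ∀ u v, D.Rel (φ u) (φ v) → s(u, v) ∉ (Finset.univ.image fun j => s(a j, b j)) →
        lab (φ u) = lab (φ v) := by
      intro u v h1 h2
      rcases Dat.rel_cases hD (hL.mem u) (hL.mem v) h1 with ⟨x, i, -, h3, h4⟩ | ⟨j, hj, t, ht, h3, h4⟩
      · rw [h3, h4, hlab]
        rfl
      · rw [h3, h4]
        refine hrel j hj t ht ?_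
        rintro rfl
        apply h2
        rw [Finset.mem_image]
        refine ⟨⟨j, hj⟩, Finset.mem_univ _, ?_⟩
        have e1 : a ⟨j, hj⟩ = u := hL.inj (by rw [ha, h3])
        have e2 : b ⟨j, hj⟩ = v := hL.inj (by rw [hb, h4])
        rw [e1, e2]
    have hadj : ∀ u v, (G.deleteEdges (Finset.univ.image fun j => s(a j, b j) :
        Finset (Sym2 T))).Adj u v → lab (φ u) = lab (φ v) := by
      intro u v h1
      rw [SimpleGraph.deleteEdges_adj, hL.adj] at h1
      rcases h1.1.2 with h2 | h2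
      · exact hrel2 u v h2 h1.2
      · refine (hrel2 v u h2 ?_).symm
        rw [Sym2.eq_swap]
        exact h1.2
    have hreach : ∀ u v, (G.deleteEdges (Finset.univ.image fun j => s(a j, b j) :
        Finset (Sym2 T))).Reachable u v → lab (φ u) = lab (φ v) := by
      rintro u v ⟨w⟩
      induction w with
      | nil => rfl
      | cons h1 _ ih => exact (hadj _ _ h1).trans ih
    intro v
    have hlR : lab (φ v) ∈ D.R := by
      have hm := hL.mem v
      rcases h1 : φ v with ⟨x, i⟩ | ⟨j, t⟩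
      · rw [h1] at hm
        rw [hlab]
        exact hm.1
      · rw [h1] at hm
        rw [hlab]
        change (if t < s j then D.U j else D.V j) ∈ D.R
        split_ifs
        · exact hD.U_mem j hm.1
        · exact hD.V_mem j hm.1
    refine le_trans ?_ (hx _ hlR)
    obtain ⟨x, hxe⟩ : ∃ x, x = lab (φ v) := ⟨_, rfl⟩
    rw [← hxe]
    obtain ⟨F, hF⟩ : ∃ F : Finset (Cd X J), F = ((Finset.range (D.c x)).image
      fun i => (Sum.inl (x, i) : Cd X J)) ∪
      (((D.S.filter fun j => D.U j = x).biUnion fun j => (Finset.range (s j)).image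
        fun t => (Sum.inr (j, t) : Cd X J)) ∪
      ((D.S.filter fun j => D.V j = x).biUnion fun j => (Finset.Ico (s j) D.W).image
        fun t => (Sum.inr (j, t) : Cd X J))) := ⟨_, rfl⟩
    have hFc : F.card ≤ D.load s x := by
      rw [hF, Dat.load, add_assoc]
      refine (Finset.card_union_le _ _).trans (Nat.add_le_add ?_
        ((Finset.card_union_le _ _).trans (Nat.add_le_add ?_ ?_)))
      · exact Finset.card_image_le.trans (Finset.card_range _).le
      · refine Finset.card_biUnion_le.trans (Finset.sum_le_sum fun j _ => ?_)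
        exact Finset.card_image_le.trans (Finset.card_range _).le
      · refine Finset.card_biUnion_le.trans (Finset.sum_le_sum fun j _ => ?_)
        exact Finset.card_image_le.trans (Nat.card_Ico _ _).le
    refine le_trans ?_ hFc
    rw [← Set.ncard_coe_finset]
    refine Set.ncard_le_ncard_of_injOn φ ?_ hL.inj.injOn (Finset.finite_toSet _)
    intro w hw
    have h1 : lab (φ w) = x := by rw [hxe]; exact (hreach v w hw).symm
    have hm := hL.mem w
    rw [Finset.mem_coe, hF, Finset.mem_union, Finset.mem_union]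
    rcases h2 : φ w with ⟨y, i⟩ | ⟨j, t⟩
    · left
      rw [h2] at hm h1
      rw [hlab] at h1
      change y = x at h1
      subst h1
      exact Finset.mem_image_of_mem _ (Finset.mem_range.mpr hm.2)
    · right
      rw [h2] at hm h1
      rw [hlab] at h1
      change (if t < s j then D.U j else D.V j) = x at h1
      split_ifs at h1 with h3
      · left
        rw [Finset.mem_biUnion]
        exact ⟨j, Finset.mem_filter.mpr ⟨hm.1, h1⟩,
          Finset.mem_image_of_mem _ (Finset.mem_range.mpr h3)⟩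
      · right
        rw [Finset.mem_biUnion]
        exact ⟨j, Finset.mem_filter.mpr ⟨hm.1, h1⟩,
          Finset.mem_image_of_mem _ (Finset.mem_Ico.mpr ⟨by omega, hm.2⟩)⟩

/-- A section of the coding of the vertices. -/
theorem exists_section (hL : Lay G φ D) (hT : Nonempty T) :
    ∃ F : Cd X J → T, ∀ d, D.Mem d → φ (F d) = d := by
  classical
  refine ⟨fun d => if h : D.Mem d then (hL.surj d h).choose else hT.some, fun d hd => ?_⟩
  simp only [dif_pos hd]
  exact (hL.surj d hd).choose_spec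

/-- The hub of a leaf. -/
def hubOf : Cd X J → Cd X J := Sum.elim (fun p => Sum.inl (p.1, 0)) (fun p => Sum.inr p)

/-- Heavy hubs are not connected. -/
theorem not_reachable (hL : Lay G φ D) {h K : ℕ} {E : Finset (Sym2 T)} (hE : E.card ≤ K)
    (hcomp : ∀ v, {w | (G.deleteEdges E).Reachable v w}.ncard ≤ h) {F : Cd X J → T}
    (hF : ∀ d, D.Mem d → φ (F d) = d) {x y : X} (hx : x ∈ D.R) (hy : y ∈ D.R) (hxy : x ≠ y)
    (hc : 0 < D.c x ∧ 0 < D.c y) (hh : h + K < D.c x + D.c y) :
    ¬ (G.deleteEdges E).Reachable (F (Sum.inl (x, 0))) (F (Sum.inl (y, 0))) := by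
  classical
  intro hreach
  obtain ⟨C, hC⟩ : ∃ C : Set T, C = {w | (G.deleteEdges E).Reachable (F (Sum.inl (x, 0))) w} :=
    ⟨_, rfl⟩
  have hCc : C.ncard ≤ h := by rw [hC]; exact hcomp _
  have hxC : F (Sum.inl (x, 0)) ∈ C := by rw [hC]; exact SimpleGraph.Reachable.refl _
  have hyC : F (Sum.inl (y, 0)) ∈ C := by rw [hC]; exact hreach
  obtain ⟨L, hLL⟩ : ∃ L : Finset T, L = ((Finset.range (D.c x)).disjSum
      (Finset.range (D.c y))).image fun a => F (Sum.elim (fun i => (Sum.inl (x, i) : Cd X J))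
        (fun i => Sum.inl (y, i)) a) := ⟨_, rfl⟩
  have hLm : ∀ w ∈ L, ∃ z, (z = x ∨ z = y) ∧ ∃ i, D.Mem (Sum.inl (z, i)) ∧
      w = F (Sum.inl (z, i)) ∧ φ w = Sum.inl (z, i) := by
    intro w hw
    rw [hLL, Finset.mem_image] at hw
    obtain ⟨a, ha, rfl⟩ := hw
    rcases a with i | i
    · rw [Finset.inl_mem_disjSum, Finset.mem_range] at ha
      exact ⟨x, Or.inl rfl, i, ⟨hx, ha⟩, rfl, hF _ ⟨hx, ha⟩⟩
    · rw [Finset.inr_mem_disjSum, Finset.mem_range] at ha
      exact ⟨y, Or.inr rfl, i, ⟨hy, ha⟩, rfl, hF _ ⟨hy, ha⟩⟩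
  have hLc : L.card = D.c x + D.c y := by
    rw [hLL, Finset.card_image_of_injOn, Finset.card_disjSum, Finset.card_range, Finset.card_range]
    intro a ha b hb hab
    rw [Finset.mem_coe] at ha hb
    have h1 := congrArg φ hab
    simp only at h1
    rcases a with i | i <;> rcases b with i' | i'
    · rw [Finset.inl_mem_disjSum, Finset.mem_range] at ha hb
      simp only [Sum.elim_inl] at h1
      rw [hF _ (show D.Mem (Sum.inl (x, i)) from ⟨hx, ha⟩),
        hF _ (show D.Mem (Sum.inl (x, i')) from ⟨hx, hb⟩)] at h1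
      simpa using h1
    · rw [Finset.inl_mem_disjSum, Finset.mem_range] at ha
      rw [Finset.inr_mem_disjSum, Finset.mem_range] at hb
      simp only [Sum.elim_inl, Sum.elim_inr] at h1
      rw [hF _ (show D.Mem (Sum.inl (x, i)) from ⟨hx, ha⟩),
        hF _ (show D.Mem (Sum.inl (y, i')) from ⟨hy, hb⟩)] at h1
      simp only [Sum.inl.injEq, Prod.mk.injEq] at h1
      exact absurd h1.1 hxy
    · rw [Finset.inr_mem_disjSum, Finset.mem_range] at ha
      rw [Finset.inl_mem_disjSum, Finset.mem_range] at hb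
      simp only [Sum.elim_inl, Sum.elim_inr] at h1
      rw [hF _ (show D.Mem (Sum.inl (y, i)) from ⟨hy, ha⟩),
        hF _ (show D.Mem (Sum.inl (x, i')) from ⟨hx, hb⟩)] at h1
      simp only [Sum.inl.injEq, Prod.mk.injEq] at h1
      exact absurd h1.1.symm hxy
    · rw [Finset.inr_mem_disjSum, Finset.mem_range] at ha hb
      simp only [Sum.elim_inr] at h1
      rw [hF _ (show D.Mem (Sum.inl (y, i)) from ⟨hy, ha⟩),
        hF _ (show D.Mem (Sum.inl (y, i')) from ⟨hy, hb⟩)] at h1
      simpa using h1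
  have hhub : ∀ w ∈ L, F (hubOf (φ w)) ∈ C := by
    intro w hw
    obtain ⟨z, hz, i, -, -, h1⟩ := hLm w hw
    rw [h1]
    rcases hz with rfl | rfl
    · exact hxC
    · exact hyC
  have hcard : (L.filter fun w => w ∉ C).card ≤ E.card := by
    refine Finset.card_le_card_of_injOn (fun w => s(w, F (hubOf (φ w)))) ?_ ?_
    · intro w hw
      rw [Finset.mem_coe, Finset.mem_filter] at hw
      rw [Finset.mem_coe]
      by_contra hcon
      apply hw.2
      have h1 := hhub w hw.1
      obtain ⟨z, hz, i, hm, h2, h3⟩ := hLm w hw.1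
      have hz0 : D.Mem (Sum.inl (z, 0)) := by
        rcases hz with rfl | rfl
        · exact ⟨hx, hc.1⟩
        · exact ⟨hy, hc.2⟩
      have h4 : φ (F (hubOf (φ w))) = Sum.inl (z, 0) := by
        rw [h3]
        exact hF _ hz0
      have hne : w ≠ F (hubOf (φ w)) := by
        intro h5
        rw [← h5] at h1
        exact hw.2 h1
      have hi : i ≠ 0 := by
        rintro rfl
        exact hne (hL.inj (h3.trans h4.symm))
      have hadj : (G.deleteEdges E).Adj w (F (hubOf (φ w))) := by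
        rw [SimpleGraph.deleteEdges_adj, hL.adj]
        refine ⟨⟨hne, Or.inl ?_⟩, hcon⟩
        rw [h4, h3]
        exact ⟨rfl, hi, rfl⟩
      rw [hC] at h1 ⊢
      exact h1.trans hadj.reachable.symm
    · intro w hw w' hw' he
      rw [Finset.mem_coe, Finset.mem_filter] at hw hw'
      simp only at he
      rw [Sym2.eq_iff] at he
      rcases he with he | he
      · exact he.1
      · exfalso
        apply hw.2
        rw [he.1]
        exact hhub w' hw'.1
  have hsplit : L.card = (L.filter fun w => w ∈ C).card + (L.filter fun w => w ∉ C).card := by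
    rw [Finset.card_filter_add_card_filter_not]
  have h2 : (L.filter fun w => w ∈ C).card ≤ C.ncard := by
    rw [← Set.ncard_coe_finset]
    refine Set.ncard_le_ncard ?_ (Set.toFinite _)
    intro w hw
    rw [Finset.mem_coe, Finset.mem_filter] at hw
    exact hw.2
  omega

/-- A set of edges gives a solution of the system. -/
theorem sol_of_cut (hL : Lay G φ D) (hD : D.WF) {h : ℕ}
    (hheavy : ∀ x ∈ D.R, ∀ y ∈ D.R, x ≠ y → h + D.S.card < D.c x + D.c y)
    {E : Finset (Sym2 T)} (hE : E.card ≤ D.S.card)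
    (hcomp : ∀ v, {w | (G.deleteEdges E).Reachable v w}.ncard ≤ h) :
    ∃ s : J → ℕ, (∀ j ∈ D.S, D.Cut j (s j)) ∧ ∀ x ∈ D.R, D.load s x ≤ h := by
  classical
  by_cases hT : Nonempty T
  swap
  · refine ⟨fun _ => 0, fun _ _ => Or.inl rfl, fun x hx => ?_⟩
    obtain ⟨u, -⟩ := hL.surj (Sum.inl (x, 0)) ⟨hx, hD.c_pos x hx⟩
    exact absurd ⟨u⟩ hT
  obtain ⟨F, hF⟩ := exists_section hL hT
  have adjH : ∀ d e, D.Mem d → D.Mem e → d ≠ e → D.Rel d e → s(F d, F e) ∉ E →
      (G.deleteEdges E).Adj (F d) (F e) := by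
    intro d e hd he hne hr hn
    rw [SimpleGraph.deleteEdges_adj, hL.adj]
    refine ⟨⟨fun h1 => hne ?_, Or.inl ?_⟩, hn⟩
    · rw [← hF d hd, ← hF e he, h1]
    · rw [hF d hd, hF e he]
      exact hr
  have hcutW : ∀ j ∈ D.S, ∀ t, D.Cut j t → t ≤ D.W := by
    intro j hj t ht
    rcases ht with h1 | h1 | h1
    · omega
    · omega
    · exact (hD.A_pos j hj _ h1).2.le
  -- some edge of each thread is deleted
  have hex : ∀ j ∈ D.S, ∃ t, D.Cut j t ∧ s(F (D.pt j t), F (D.par j t)) ∈ E := by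
    intro j hj
    by_contra hcon
    push Not at hcon
    have key : ∀ t, D.Cut j t →
        (G.deleteEdges E).Reachable (F (D.pt j t)) (F (Sum.inl (D.U j, 0))) := by
      intro t
      induction t using Nat.strong_induction_on with
      | _ t ih =>
        intro ht
        have htW := hcutW j hj t ht
        have h1 := adjH _ _ (Dat.pt_mem hD hj t) (Dat.par_mem hD hj htW) (Dat.pt_ne_par hD hj htW)
          (Dat.rel_pt hD htW) (hcon t ht)
        refine h1.reachable.trans ?_
        by_cases h0 : t = 0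
        · subst h0
          rw [Dat.par_zero]
        · have h2 := D.pred_spec j h0
          have h3 : D.pt j (D.pred j t) = D.par j t := by
            rw [Dat.par_pos h0, Dat.pt_lt (h2.1.trans_le htW)]
          rw [← h3]
          refine ih _ h2.1 ?_
          rcases h2.2.1 with h4 | h4
          · exact Or.inl h4
          · exact Or.inr (Or.inr h4)
    have h1 := key D.W (Or.inr (Or.inl rfl))
    rw [Dat.pt_W] at h1
    exact not_reachable hL hE hcomp hF (hD.V_mem j hj) (hD.U_mem j hj) (hD.ne j hj).symm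
      ⟨hD.c_pos _ (hD.V_mem j hj), hD.c_pos _ (hD.U_mem j hj)⟩
      (hheavy _ (hD.V_mem j hj) _ (hD.U_mem j hj) (hD.ne j hj).symm) h1
  choose! s hs hsE using hex
  refine ⟨s, hs, ?_⟩
  have hsW : ∀ j ∈ D.S, s j ≤ D.W := fun j hj => hcutW j hj _ (hs j hj)
  -- the edges are distinct
  have hinj : ∀ j ∈ D.S, ∀ j' ∈ D.S, ∀ t ≤ D.W, ∀ t' ≤ D.W,
      s(F (D.pt j t), F (D.par j t)) = s(F (D.pt j' t'), F (D.par j' t')) → j = j' ∧ t = t' := by
    intro j hj j' hj' t ht t' ht' he
    refine Dat.edge_inj hD hj ht ht' ?_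
    have p1 := hF _ (Dat.pt_mem hD hj t)
    have p2 := hF _ (Dat.par_mem hD hj ht)
    have p3 := hF _ (Dat.pt_mem hD hj' t')
    have p4 := hF _ (Dat.par_mem hD hj' ht')
    rw [Sym2.eq_iff] at he
    rcases he with ⟨h1, h2⟩ | ⟨h1, h2⟩
    · left
      rw [← p1, ← p2, ← p3, ← p4, h1, h2]
      exact ⟨rfl, rfl⟩
    · right
      rw [← p1, ← p2, ← p3, ← p4, h1, h2]
      exact ⟨rfl, rfl⟩
  have hEeq : D.S.image (fun j => s(F (D.pt j (s j)), F (D.par j (s j)))) = E := by
    refine Finset.eq_of_subset_of_card_le ?_ ?_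
    · intro e he
      rw [Finset.mem_image] at he
      obtain ⟨j, hj, rfl⟩ := he
      exact hsE j hj
    · rw [Finset.card_image_of_injOn]
      · exact hE
      · intro j hj j' hj' he
        exact (hinj j hj j' hj' _ (hsW j hj) _ (hsW j' hj') he).1
  have hnot : ∀ j ∈ D.S, ∀ t ≤ D.W, t ≠ s j → s(F (D.pt j t), F (D.par j t)) ∉ E := by
    intro j hj t ht hne he
    rw [← hEeq, Finset.mem_image] at he
    obtain ⟨j', hj', he⟩ := he
    have h1 := hinj j' hj' j hj _ (hsW j' hj') _ ht he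
    apply hne
    rw [← h1.2, h1.1]
  have hleaf : ∀ x ∈ D.R, ∀ i < D.c x, i ≠ 0 →
      s(F (Sum.inl (x, i)), F (Sum.inl (x, 0))) ∉ E := by
    intro x hx i hi hi0 he
    rw [← hEeq, Finset.mem_image] at he
    obtain ⟨j, hj, he⟩ := he
    have p1 := hF _ (Dat.pt_mem hD hj (s j))
    have p2 := hF _ (Dat.par_mem hD hj (hsW j hj))
    have p3 := hF (Sum.inl (x, i)) ⟨hx, hi⟩
    have h5 : D.pt j (s j) = Sum.inl (x, i) ∨ D.par j (s j) = Sum.inl (x, i) := by
      rw [Sym2.eq_iff] at he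
      rcases he with ⟨h1, -⟩ | ⟨-, h1⟩
      · left
        rw [← p1, ← p3, h1]
      · right
        rw [← p2, ← p3, h1]
    rcases h5 with h5 | h5
    · unfold Dat.pt at h5
      split_ifs at h5
      rw [Sum.inl.injEq, Prod.mk.injEq] at h5
      exact hi0 h5.2.symm
    · unfold Dat.par at h5
      split_ifs at h5
      rw [Sum.inl.injEq, Prod.mk.injEq] at h5
      exact hi0 h5.2.symm
  -- connections
  have hcU : ∀ j ∈ D.S, ∀ t < s j,
      (G.deleteEdges E).Reachable (F (Sum.inl (D.U j, 0))) (F (Sum.inr (j, t))) := by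
    intro j hj t
    induction t using Nat.strong_induction_on with
    | _ t ih =>
      intro ht
      have htW : t < D.W := ht.trans_le (hsW j hj)
      have h1 := adjH _ _ (Dat.pt_mem hD hj t) (Dat.par_mem hD hj htW.le)
        (Dat.pt_ne_par hD hj htW.le) (Dat.rel_pt hD htW.le) (hnot j hj t htW.le (by omega))
      rw [Dat.pt_lt htW] at h1
      by_cases h0 : t = 0
      · subst h0
        rw [Dat.par_zero] at h1
        exact h1.reachable.symm
      · rw [Dat.par_pos h0] at h1
        have h2 := D.pred_spec j h0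
        exact (ih _ h2.1 (h2.1.trans ht)).trans h1.reachable.symm
  have hcV' : ∀ j ∈ D.S, ∀ t ≤ D.W, s j ≤ t →
      (G.deleteEdges E).Reachable (F (D.pt j (s j))) (F (D.pt j t)) := by
    intro j hj t
    induction t using Nat.strong_induction_on with
    | _ t ih =>
      intro htW hst
      rcases Nat.eq_or_lt_of_le hst with h0 | h0
      · rw [h0]
      · have h1 := adjH _ _ (Dat.pt_mem hD hj t) (Dat.par_mem hD hj htW)
          (Dat.pt_ne_par hD hj htW) (Dat.rel_pt hD htW) (hnot j hj t htW (by omega))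
        have ht0 : t ≠ 0 := by omega
        have h2 := D.pred_spec j ht0
        have h3 : D.pt j (D.pred j t) = D.par j t := by
          rw [Dat.par_pos ht0, Dat.pt_lt (h2.1.trans_le htW)]
        rw [← h3] at h1
        refine (ih _ h2.1 (h2.1.le.trans htW) ?_).trans h1.reachable.symm
        rcases hs j hj with h4 | h4 | h4
        · omega
        · omega
        · exact h2.2.2 _ h4 h0
  have hcV : ∀ j ∈ D.S, ∀ t < D.W, s j ≤ t →
      (G.deleteEdges E).Reachable (F (Sum.inl (D.V j, 0))) (F (Sum.inr (j, t))) := by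
    intro j hj t ht hst
    have h1 := hcV' j hj t ht.le hst
    have h2 := hcV' j hj D.W le_rfl (hsW j hj)
    rw [Dat.pt_W] at h2
    rw [Dat.pt_lt ht] at h1
    exact h2.symm.trans h1
  have hcl : ∀ x ∈ D.R, ∀ i < D.c x,
      (G.deleteEdges E).Reachable (F (Sum.inl (x, 0))) (F (Sum.inl (x, i))) := by
    intro x hx i hi
    by_cases h0 : i = 0
    · subst h0
      exact SimpleGraph.Reachable.refl _
    · refine (adjH (Sum.inl (x, i)) (Sum.inl (x, 0)) ⟨hx, hi⟩ ⟨hx, hD.c_pos x hx⟩ ?_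
        ⟨rfl, h0, rfl⟩ (hleaf x hx i hi h0)).reachable.symm
      intro h1
      rw [Sum.inl.injEq, Prod.mk.injEq] at h1
      exact h0 h1.2
  -- counting
  intro x hx
  refine le_trans ?_ (hcomp (F (Sum.inl (x, 0))))
  obtain ⟨Q, hQ⟩ : ∃ Q : Finset (ℕ ⊕ ((Σ _ : J, ℕ) ⊕ (Σ _ : J, ℕ))), Q =
      (Finset.range (D.c x)).disjSum (((D.S.filter fun j => D.U j = x).sigma
        fun j => Finset.range (s j)).disjSum ((D.S.filter fun j => D.V j = x).sigma
          fun j => Finset.Ico (s j) D.W)) := ⟨_, rfl⟩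
  have hQc : Q.card = D.load s x := by
    rw [hQ, Finset.card_disjSum, Finset.card_disjSum, Finset.card_sigma, Finset.card_sigma,
      Dat.load, Finset.card_range, add_assoc]
    simp only [Finset.card_range, Nat.card_Ico]
  obtain ⟨g, hg⟩ : ∃ g : (ℕ ⊕ ((Σ _ : J, ℕ) ⊕ (Σ _ : J, ℕ))) → Cd X J, g =
      Sum.elim (fun i => Sum.inl (x, i)) (Sum.elim (fun p => Sum.inr (p.1, p.2))
        (fun p => Sum.inr (p.1, p.2))) := ⟨_, rfl⟩
  have hgm : ∀ a ∈ Q, D.Mem (g a) ∧
      (G.deleteEdges E).Reachable (F (Sum.inl (x, 0))) (F (g a)) := by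
    intro a ha
    rw [hQ] at ha
    rcases a with i | ⟨j, t⟩ | ⟨j, t⟩
    · rw [Finset.inl_mem_disjSum, Finset.mem_range] at ha
      rw [hg]
      exact ⟨⟨hx, ha⟩, hcl x hx i ha⟩
    · rw [Finset.inr_mem_disjSum, Finset.inl_mem_disjSum, Finset.mem_sigma, Finset.mem_filter,
        Finset.mem_range] at ha
      rw [hg]
      obtain ⟨⟨h1, h2⟩, h3⟩ := ha
      simp only at h1 h2 h3
      have h4 := hsW j h1
      refine ⟨⟨h1, h3.trans_le h4⟩, ?_⟩
      rw [← h2]
      exact hcU j h1 t h3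
    · rw [Finset.inr_mem_disjSum, Finset.inr_mem_disjSum, Finset.mem_sigma, Finset.mem_filter,
        Finset.mem_Ico] at ha
      rw [hg]
      obtain ⟨⟨h1, h2⟩, h3, h4⟩ := ha
      simp only at h1 h2 h3 h4
      refine ⟨⟨h1, h4⟩, ?_⟩
      rw [← h2]
      exact hcV j h1 t h4 h3
  rw [← hQc, ← Set.ncard_coe_finset]
  refine Set.ncard_le_ncard_of_injOn (fun a => F (g a)) (fun a ha => (hgm a ha).2) ?_
    (Set.toFinite _)
  intro a ha b hb hab
  have h1 : g a = g b := by
    rw [← hF _ (hgm a ha).1, ← hF _ (hgm b hb).1]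
    exact congrArg φ hab
  rw [Finset.mem_coe, hQ] at ha hb
  rw [hg] at h1
  rcases a with i | ⟨j, t⟩ | ⟨j, t⟩ <;> rcases b with i' | ⟨j', t'⟩ | ⟨j', t'⟩
  · simp only [Sum.elim_inl, Sum.inl.injEq, Prod.mk.injEq, true_and] at h1
    rw [h1]
  · simp at h1
  · simp at h1
  · simp at h1
  · simp only [Sum.elim_inl, Sum.elim_inr, Sum.inr.injEq, Prod.mk.injEq] at h1
    rw [h1.1, h1.2]
  · exfalso
    simp only [Sum.elim_inl, Sum.elim_inr, Sum.inr.injEq, Prod.mk.injEq] at h1
    rw [Finset.inr_mem_disjSum, Finset.inl_mem_disjSum, Finset.mem_sigma, Finset.mem_filter,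
        Finset.mem_range] at ha
    rw [Finset.inr_mem_disjSum, Finset.inr_mem_disjSum, Finset.mem_sigma, Finset.mem_filter,
        Finset.mem_Ico] at hb
    simp only at ha hb
    rw [← h1.1] at hb
    exact hD.ne j ha.1.1 (ha.1.2.trans hb.1.2.symm)
  · simp at h1
  · exfalso
    simp only [Sum.elim_inl, Sum.elim_inr, Sum.inr.injEq, Prod.mk.injEq] at h1
    rw [Finset.inr_mem_disjSum, Finset.inl_mem_disjSum, Finset.mem_sigma, Finset.mem_filter,
        Finset.mem_range] at hb
    rw [Finset.inr_mem_disjSum, Finset.inr_mem_disjSum, Finset.mem_sigma, Finset.mem_filter,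
        Finset.mem_Ico] at ha
    simp only at ha hb
    rw [← h1.1] at hb
    exact hD.ne j ha.1.1 (hb.1.2.trans ha.1.2.symm)
  · simp only [Sum.elim_inr, Sum.inr.injEq, Prod.mk.injEq] at h1
    rw [h1.1, h1.2]

end

end Q224.ED
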